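import Mathlib

set_option autoImplicit false

/-!
Finite combinatorics for a cut model: statements.
-/

namespace Pool.Agent.U35.RC

/-- one move: from `A` to `A'`, for the colouring `min (F ·) c`, the number `x` and the set `H` -/
def Nxt (A A' : Finset ℕ) (F : ℕ → ℕ) (c x : ℕ) (H : Set ℕ) : Prop :=
  A' ⊆ A ∧ (∃ a ∈ A, ∀ a' ∈ A', a < a') ∧
  ((∀ a ∈ A, 2 * (c + 1) ≤ a) → ∀ a ∈ A', ∀ b ∈ A', min (F a) c = min (F b) c) ∧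
  ((∀ a ∈ A', a < x) ∨ ∀ a ∈ A', x ≤ a) ∧
  ∀ h ∈ H, ¬ ((∃ a ∈ A', a ≤ h) ∧ ∃ a ∈ A', h ≤ a)

/-- `A` allows `k` moves, against all sets `H` which are independent in the graph `G` -/
def Win (G : ℕ → ℕ → Prop) : ℕ → Finset ℕ → Prop
  | 0, A => A.Nonempty
  | k + 1, A => A.Nonempty ∧ ∀ (F : ℕ → ℕ) (c x : ℕ) (H : Set ℕ),
      (∀ y ∈ H, ∀ z ∈ H, y < z → ¬ G y z) → ∃ A', Nxt A A' F c x H ∧ Win G k A'

/-- the edge relation of the shift graph on the codes of pairs -/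
def Sft (i j : ℕ) : Prop := ∃ a b c, a < b ∧ b < c ∧ i = Nat.pair a b ∧ j = Nat.pair b c

/-- finite sets `C` of indices which are large for the shift graph: `k` colourings with at most
`β (min C)` colours can be made constant -/
def T (β : ℕ → ℕ) : ℕ → Finset ℕ → Prop
  | 0, C => ∃ i ∈ C, ∃ j ∈ C, Sft i j
  | k + 1, C => (∃ i ∈ C, ∃ j ∈ C, Sft i j) ∧ ∀ f : ℕ → ℕ,
      (∀ i ∈ C, ∀ j ∈ C, f i < β j) → ∃ C' ⊆ C, T β k C' ∧ ∀ i ∈ C', ∀ j ∈ C', f i = f j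

/-- the structure of level `k` -/
def St (G : ℕ → ℕ → Prop) : ℕ → Finset ℕ → Prop
  | 0, A => A.Nonempty
  | k + 1, A => ∃ (β : ℕ → ℕ) (C : Finset ℕ) (P : ℕ → Finset ℕ), T β k C ∧
      (∀ i ∈ C, P i ⊆ A ∧ St G k (P i)) ∧ (∀ i ∈ C, ∀ a ∈ P i, a ≤ β i) ∧
      (∀ i ∈ C, ∀ j ∈ C, i < j → ∀ a ∈ P i, ∀ b ∈ P j, a < b) ∧
      ∀ i ∈ C, ∀ j ∈ C, Sft i j → ∀ x y, (∃ a ∈ P i, a ≤ x) → (∃ a ∈ P i, x ≤ a) →
        (∃ b ∈ P j, b ≤ y) → (∃ b ∈ P j, y ≤ b) → G x y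

/-- package T: large finite sets exist beyond each number -/
def S_T : Prop := ∀ (β : ℕ → ℕ) (k : ℕ), ∃ C : Finset ℕ, T β k C

/-- package W: the structure gives the moves -/
def S_W : Prop := ∀ (G : ℕ → ℕ → Prop) (k : ℕ) (A : Finset ℕ), (∀ a ∈ A, 2 ≤ a) →
  St G (3 * k) A → Win G k A

/-- package E: existence of the structure, with small cliques -/
def S_E : Prop := S_T → ∀ (g : ℕ → ℕ), Monotone g → ∀ k N : ℕ,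
  ∃ (G : ℕ → ℕ → Prop) (A : Finset ℕ) (B : ℕ), (∀ a ∈ A, N ≤ a ∧ a < B) ∧
    (∀ a ∈ A, ∀ b ∈ A, a < b → g a ≤ b) ∧ St G k A ∧ (∀ x y, G x y → N ≤ x ∧ x < y ∧ y < B) ∧
    ∀ Q : Finset ℕ, (∀ x ∈ Q, ∀ y ∈ Q, x < y → G x y) → Q.card ≤ 2 ^ k

/-- the combinatorial theorem -/
def S_COMB : Prop := ∀ (g : ℕ → ℕ), Monotone g → ∀ k N : ℕ,
  ∃ (G : ℕ → ℕ → Prop) (A : Finset ℕ) (B : ℕ), (∀ a ∈ A, N ≤ a ∧ a < B) ∧
    (∀ a ∈ A, ∀ b ∈ A, a < b → g a ≤ b) ∧ Win G k A ∧ (∀ x y, G x y → x < y ∧ y < B) ∧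
    ∀ Q : Finset ℕ, (∀ x ∈ Q, ∀ y ∈ Q, x < y → G x y) → Q.card ≤ 2 ^ (3 * k)

theorem comb_of (hT : S_T) (hW : S_W) (hE : S_E) : S_COMB := by
  intro g hg k N
  obtain ⟨G, A, B, h1, h2, h3, h4, h5⟩ := hE hT g hg (3 * k) (max N 2)
  exact ⟨G, A, B, fun a ha => ⟨(le_max_left _ _).trans (h1 a ha).1, (h1 a ha).2⟩, h2,
    hW G k A (fun a ha => (le_max_right _ _).trans (h1 a ha).1) h3, fun x y h => (h4 x y h).2, h5⟩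

end Pool.Agent.U35.RC
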