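import Pool.Agent.H40.Bsig3
import Pool.Agent.U35.RC.Stm

set_option autoImplicit false

/-!
A countable family of functions, closed under least witnesses of countably many relations.
-/

namespace Pool.Agent.U35.RC

open Filter
open Pool.Agent.H40.Bsig (Tm Fm Mod Sat Bdd cons std dec dec_pair U sp sp_inj le_sp Codes)

/-- the `c`-th finite set -/
noncomputable def fs : ℕ → Finset ℕ := (exists_surjective_nat (Finset ℕ)).choose

theorem fs_surj (X : Finset ℕ) : ∃ c, fs c = X := (exists_surjective_nat (Finset ℕ)).choose_spec X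

/-- the `c`-th finite function -/
noncomputable def fv (c x : ℕ) : ℕ := ((exists_surjective_nat (List ℕ)).choose c).getD x 0

theorem fv_surj (f : ℕ → ℕ) (b : ℕ) : ∃ c, ∀ x < b, fv c x = f x := by
  obtain ⟨c, hc⟩ := (exists_surjective_nat (List ℕ)).choose_spec ((List.range b).map f)
  refine ⟨c, fun x hx => ?_⟩
  unfold fv
  rw [hc, List.getD_eq_getElem _ _ (by simpa using hx)]
  simp

theorem fs_exists (b : ℕ) (P : ℕ → Prop) : ∃ c, ∀ x, x ∈ fs c ↔ x < b ∧ P x := by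
  classical
  obtain ⟨c, hc⟩ := fs_surj ((Finset.range b).filter P)
  exact ⟨c, fun x => by rw [hc]; simp⟩

/-- the least `y` with `P y`, or `b` -/
noncomputable def lw (b : ℕ) (P : ℕ → Prop) : ℕ := sInf ({y | P y} ∪ {b})

theorem lw_le {b : ℕ} {P : ℕ → Prop} : lw b P ≤ b := Nat.sInf_le (Or.inr rfl)

theorem lw_le_of {b y : ℕ} {P : ℕ → Prop} (h : P y) : lw b P ≤ y := Nat.sInf_le (Or.inl h)

theorem lw_spec {b : ℕ} {P : ℕ → Prop} (h : lw b P < b) : P (lw b P) := by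
  have h1 : lw b P ∈ ({y | P y} ∪ {b} : Set ℕ) := Nat.sInf_mem ⟨b, Or.inr rfl⟩
  rcases h1 with h1 | h1
  · exact h1
  · exact absurd h1 h.ne

/-- the least `y` with `P p y` -/
noncomputable def sk (P : ℕ → ℕ → Prop) (p : ℕ) : ℕ := sInf {y | P p y}

theorem sk_spec {P : ℕ → ℕ → Prop} {p : ℕ} (h : ∃ y, P p y) : P p (sk P p) := Nat.sInf_mem h

theorem sk_le {P : ℕ → ℕ → Prop} {p y : ℕ} (h : P p y) : sk P p ≤ y := Nat.sInf_le h

/-- sets coded by the entries of `e` -/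
noncomputable def st (e i : ℕ) : Set ℕ := {x | x ∈ fs (dec e i)}

/-- the ternary relations given by a formula; `p = (e, d)` -/
def R3 : Bool → Fm → ℕ → ℕ → ℕ → Prop
  | false, θ, p, x, y => Sat std θ (cons y (cons x (dec p.unpair.2))) (st p.unpair.1)
  | true, θ, p, x, y => ¬ Sat std θ (cons y (cons x.unpair.2 (cons x.unpair.1 (dec p.unpair.2))))
      (st p.unpair.1)

/-- the least `x < a` for which `t x` is minimal -/
noncomputable def am (a : ℕ) (t : ℕ → ℕ) : ℕ := sInf {x | x < a ∧ ∀ x' < a, t x ≤ t x'}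

theorem am_spec {a : ℕ} {t : ℕ → ℕ} (h : 0 < a) : am a t < a ∧ ∀ x' < a, t (am a t) ≤ t x' := by
  obtain ⟨x, h1, h2⟩ := Finset.exists_min_image (Finset.range a) t ⟨0, Finset.mem_range.2 h⟩
  have : am a t ∈ {x | x < a ∧ ∀ x' < a, t x ≤ t x'} :=
    Nat.sInf_mem ⟨x, Finset.mem_range.1 h1, fun x' h' => h2 x' (Finset.mem_range.2 h')⟩
  exact this

/-- `x < s` with `fv f x` least among the values at least `z`, or `s` -/
noncomputable def hsr (s f z : ℕ) : ℕ :=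
  sInf ({x | x < s ∧ z ≤ fv f x ∧ ∀ x' < s, z ≤ fv f x' → fv f x ≤ fv f x'} ∪ {s})

theorem hsr_le (s f z : ℕ) : hsr s f z ≤ s := Nat.sInf_le (Or.inr rfl)

theorem hsr_spec {s f z : ℕ} (h : ∃ x < s, z ≤ fv f x) :
    hsr s f z < s ∧ z ≤ fv f (hsr s f z) ∧ ∀ x' < s, z ≤ fv f x' → fv f (hsr s f z) ≤ fv f x' := by
  classical
  obtain ⟨x, h1, h2⟩ := h
  obtain ⟨y, h3, h4⟩ := Finset.exists_min_image ((Finset.range s).filter (z ≤ fv f ·)) (fv f)
    ⟨x, Finset.mem_filter.2 ⟨Finset.mem_range.2 h1, h2⟩⟩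
  have h3' := Finset.mem_filter.1 h3
  have hy : y ∈ ({x | x < s ∧ z ≤ fv f x ∧ ∀ x' < s, z ≤ fv f x' → fv f x ≤ fv f x'} ∪ {s} : Set ℕ) :=
    Or.inl ⟨Finset.mem_range.1 h3'.1, h3'.2, fun x' h5 h6 =>
      h4 x' (Finset.mem_filter.2 ⟨Finset.mem_range.2 h5, h6⟩)⟩
  have h7 : hsr s f z ≤ y := Nat.sInf_le hy
  have h8 : hsr s f z ∈ ({x | x < s ∧ z ≤ fv f x ∧ ∀ x' < s, z ≤ fv f x' → fv f x ≤ fv f x'} ∪ {s} :
    Set ℕ) := Nat.sInf_mem ⟨y, hy⟩
  rcases h8 with h8 | h8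
  · exact h8
  · have := Finset.mem_range.1 h3'.1
    have h9 : hsr s f z = s := h8
    omega

theorem hsr_lt {s f z : ℕ} (h : hsr s f z < s) : z ≤ fv f (hsr s f z) := by
  have h8 : hsr s f z ∈ ({x | x < s ∧ z ≤ fv f x ∧ ∀ x' < s, z ≤ fv f x' → fv f x ≤ fv f x'} ∪ {s} :
    Set ℕ) := Nat.sInf_mem ⟨s, Or.inr rfl⟩
  rcases h8 with h8 | h8
  · exact h8.2.1
  · exact absurd h8 h.ne

/-- the members of `X` up to which `X` is independent in `G` -/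
def ini (G : ℕ → ℕ → Prop) (X : Finset ℕ) : Set ℕ :=
  {x | x ∈ X ∧ ∀ y ∈ X, ∀ z ∈ X, y < z → z ≤ x → ¬ G y z}

theorem ini_indep (G : ℕ → ℕ → Prop) (X : Finset ℕ) :
    ∀ y ∈ ini G X, ∀ z ∈ ini G X, y < z → ¬ G y z :=
  fun y hy z hz h => hz.2 y hy.1 z hz.1 h le_rfl

/-- `i` is in the set coded by `c` in the sense of the β function -/
def Cd (c i : ℕ) : Prop := ∃ k a n, c = sp k (sp a n) ∧ i < k ∧ ∃ q, (a * (i + 1) + 1) * q = n

/-- the least code of a finite set -/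
noncomputable def lc (X : Set ℕ) : ℕ := sInf {c | Codes std c X}

/-- the tree `fs t` contains the strings of lengths at most `n` of the set `X` -/
def Okt (t n : ℕ) (X : Finset ℕ) : Prop :=
  (∀ i ∈ X, i < n) ∧ ∀ n' ≤ n, sp n' (lc {i | i < n' ∧ i ∈ X}) ∈ fs t

/-- the data from the finite combinatorics -/
structure Dat where
  G : ℕ → ℕ → ℕ → Prop
  A : ℕ → Finset ℕ
  B : ℕ → ℕ
  g : ℕ → ℕ

/-- the indices of the relations -/
inductive Ix : Type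
  | const (n : ℕ)
  | fst
  | snd
  | add
  | mul
  | mn
  | mx
  | bA
  | bB
  | bC
  | bL
  | bg
  | los (θ : Fm)
  | ar (k : Bool) (θ : Fm)
  | cr (k : Bool) (θ : Fm)
  | dr (θ : Fm)
  | sr
  | ind
  | dca (θ θ' : Fm)
  | step (j : ℕ)
  | lc
  | cset
  | wfail
  | wmax
  | wset
  | cut
  | ck
  | ca
  | cn
  | quo
  | sdf
  | ev
  | cf
  | ap
  | cx
  | nif

/-- a fixed formula -/
def fm0 : Fm := .eq .zero .zero

def Ix.of : ℕ × ℕ × Bool × Fm × Fm → Ix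
  | (0, n, _, _, _) => .const n
  | (1, _, _, _, _) => .fst
  | (2, _, _, _, _) => .snd
  | (3, _, _, _, _) => .add
  | (4, _, _, _, _) => .mul
  | (5, _, _, _, _) => .mn
  | (6, _, _, _, _) => .mx
  | (7, _, _, _, _) => .bA
  | (8, _, _, _, _) => .bB
  | (9, _, _, _, _) => .bC
  | (10, _, _, _, _) => .bL
  | (11, _, _, _, _) => .bg
  | (12, _, _, θ, _) => .los θ
  | (13, _, k, θ, _) => .ar k θ
  | (14, _, k, θ, _) => .cr k θ
  | (15, _, _, θ, _) => .dr θ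
  | (16, _, _, _, _) => .sr
  | (17, _, _, _, _) => .ind
  | (18, _, _, θ, θ') => .dca θ θ'
  | (19, j, _, _, _) => .step j
  | (20, _, _, _, _) => .lc
  | (21, _, _, _, _) => .cset
  | (22, _, _, _, _) => .wfail
  | (23, _, _, _, _) => .wmax
  | (24, _, _, _, _) => .wset
  | (25, _, _, _, _) => .cut
  | (26, _, _, _, _) => .ck
  | (27, _, _, _, _) => .ca
  | (28, _, _, _, _) => .cn
  | (29, _, _, _, _) => .quo
  | (30, _, _, _, _) => .sdf
  | (31, _, _, _, _) => .ev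
  | (32, _, _, _, _) => .cf
  | (33, _, _, _, _) => .ap
  | (34, _, _, _, _) => .cx
  | (_, _, _, _, _) => .nif

theorem Ix.of_surj : Function.Surjective Ix.of := by
  intro i
  cases i with
  | const n => exact ⟨(0, n, false, fm0, fm0), rfl⟩
  | fst => exact ⟨(1, 0, false, fm0, fm0), rfl⟩
  | snd => exact ⟨(2, 0, false, fm0, fm0), rfl⟩
  | add => exact ⟨(3, 0, false, fm0, fm0), rfl⟩
  | mul => exact ⟨(4, 0, false, fm0, fm0), rfl⟩
  | mn => exact ⟨(5, 0, false, fm0, fm0), rfl⟩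
  | mx => exact ⟨(6, 0, false, fm0, fm0), rfl⟩
  | bA => exact ⟨(7, 0, false, fm0, fm0), rfl⟩
  | bB => exact ⟨(8, 0, false, fm0, fm0), rfl⟩
  | bC => exact ⟨(9, 0, false, fm0, fm0), rfl⟩
  | bL => exact ⟨(10, 0, false, fm0, fm0), rfl⟩
  | bg => exact ⟨(11, 0, false, fm0, fm0), rfl⟩
  | los θ => exact ⟨(12, 0, false, θ, fm0), rfl⟩
  | ar k θ => exact ⟨(13, 0, k, θ, fm0), rfl⟩
  | cr k θ => exact ⟨(14, 0, k, θ, fm0), rfl⟩
  | dr θ => exact ⟨(15, 0, false, θ, fm0), rfl⟩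
  | sr => exact ⟨(16, 0, false, fm0, fm0), rfl⟩
  | ind => exact ⟨(17, 0, false, fm0, fm0), rfl⟩
  | dca θ θ' => exact ⟨(18, 0, false, θ, θ'), rfl⟩
  | step j => exact ⟨(19, j, false, fm0, fm0), rfl⟩
  | lc => exact ⟨(20, 0, false, fm0, fm0), rfl⟩
  | cset => exact ⟨(21, 0, false, fm0, fm0), rfl⟩
  | wfail => exact ⟨(22, 0, false, fm0, fm0), rfl⟩
  | wmax => exact ⟨(23, 0, false, fm0, fm0), rfl⟩
  | wset => exact ⟨(24, 0, false, fm0, fm0), rfl⟩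
  | cut => exact ⟨(25, 0, false, fm0, fm0), rfl⟩
  | ck => exact ⟨(26, 0, false, fm0, fm0), rfl⟩
  | ca => exact ⟨(27, 0, false, fm0, fm0), rfl⟩
  | cn => exact ⟨(28, 0, false, fm0, fm0), rfl⟩
  | quo => exact ⟨(29, 0, false, fm0, fm0), rfl⟩
  | sdf => exact ⟨(30, 0, false, fm0, fm0), rfl⟩
  | ev => exact ⟨(31, 0, false, fm0, fm0), rfl⟩
  | cf => exact ⟨(32, 0, false, fm0, fm0), rfl⟩
  | ap => exact ⟨(33, 0, false, fm0, fm0), rfl⟩
  | cx => exact ⟨(34, 0, false, fm0, fm0), rfl⟩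
  | nif => exact ⟨(35, 0, false, fm0, fm0), rfl⟩

instance : Countable Ix := Ix.of_surj.countable

/-- the set of the edges, as a set of codes of pairs -/
def edg (D : Dat) (m : ℕ) : Set ℕ := {p | ∃ x y, p = sp x y ∧ D.G m x y}

/-- the value of the least pair with first entry `i` in `fs c` -/
noncomputable def evl (c i : ℕ) : ℕ := sInf {y | sp i y ∈ fs c}

/-- the relations -/
def Dat.rel (D : Dat) : Ix → ℕ → ℕ → Prop
  | .const n, _, y => y = n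
  | .fst, p, y => y = p.unpair.1
  | .snd, p, y => y = p.unpair.2
  | .add, p, y => y = p.unpair.1 + p.unpair.2
  | .mul, p, y => y = p.unpair.1 * p.unpair.2
  | .mn, p, y => y ∈ fs p
  | .mx, p, y => y ∈ fs p ∧ ∀ z ∈ fs p, z ≤ y
  | .bA, p, y => fs y = D.A p
  | .bB, p, y => y = D.B p
  | .bC, p, y => ∀ x, x ∈ fs y ↔ x ∈ edg D p
  | .bL, p, y => y = 2 ^ (3 * p) + 1
  | .bg, p, y => y = D.g p
  | .los θ, p, y => y < dec p 0 ∧ ¬ Sat std θ (cons y fun i => dec p (i + 2)) (st (dec p 1))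
  | .ar k θ, p, y => y < p.unpair.1 ∧ R3 k θ p.unpair.2.unpair.2 p.unpair.2.unpair.1 y
  | .cr k θ, p, y => ∀ x < p.unpair.1,
      fv y x = lw p.unpair.2.unpair.1 (R3 k θ p.unpair.2.unpair.2 x)
  | .dr θ, p, y => ∀ b < p.unpair.1, fv y b = am p.unpair.2.unpair.2.unpair.1 fun x =>
      lw p.unpair.2.unpair.1 fun e => ∀ q < b, ∃ z < e,
        R3 true θ (Nat.pair p.unpair.2.unpair.2.unpair.2.unpair.1
          (Nat.pair x p.unpair.2.unpair.2.unpair.2.unpair.2)) q z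
  | .sr, p, y => ∀ z < p.unpair.2.unpair.1, fv y z = hsr p.unpair.1 p.unpair.2.unpair.2 z
  | .ind, p, y => y < p.unpair.2.unpair.2 ∧ fv p.unpair.1 y ≤ p.unpair.2.unpair.1 ∧
      ¬ fv p.unpair.1 (y + 1) ≤ p.unpair.2.unpair.1
  | .dca θ θ', p, y => ∀ x, x ∈ fs y ↔ x < p.unpair.1 ∧ ∃ y' < p.unpair.1,
      R3 false θ p.unpair.2 x y' ∧ ∀ z < y', R3 false θ' p.unpair.2 x z
  | .step j, p, y => Nxt (fs p.unpair.2.unpair.1) (fs y) (fv (dec p.unpair.2.unpair.2 0))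
      (dec p.unpair.2.unpair.2 1) (dec p.unpair.2.unpair.2 2)
      (ini (D.G p.unpair.1) (fs (dec p.unpair.2.unpair.2 3))) ∧
        Win (D.G p.unpair.1) (p.unpair.1 - (j + 1)) (fs y)
  | .lc, p, y => Codes std y {x | x ∈ fs p}
  | .cset, p, y => ∀ i, i ∈ fs y ↔ i < p.unpair.1 ∧ Cd p.unpair.2 i
  | .wfail, p, y => y ≤ p.unpair.2.unpair.1 ∧
      sp y (Pool.Agent.U35.RC.lc {i | i < y ∧ i ∈ fs p.unpair.2.unpair.2}) ∉ fs p.unpair.1
  | .wmax, p, y => y ≤ p.unpair.2 ∧ (∃ X, Okt p.unpair.1 y X) ∧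
      ∀ n ≤ p.unpair.2, (∃ X, Okt p.unpair.1 n X) → n ≤ y
  | .wset, p, y => Okt p.unpair.1 p.unpair.2 (fs y)
  | .cut, p, y => ∀ i, i ∈ fs y ↔ i < p.unpair.1 ∧ i ∈ fs p.unpair.2
  | .ck, p, y => ∃ a n, p = sp y (sp a n)
  | .ca, p, y => ∃ k n, p = sp k (sp y n)
  | .cn, p, y => ∃ k a, p = sp k (sp a y)
  | .quo, p, y => p.unpair.1 * y = p.unpair.2
  | .sdf, p, y => ¬ (y ∈ fs p.unpair.1 ↔ Cd p.unpair.2 y)
  | .ev, p, y => sp p.unpair.2 y ∈ fs p.unpair.1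
  | .cf, p, y => y.unpair.1 < y.unpair.2 ∧ y.unpair.2 < p.unpair.2.unpair.1 ∧
      ¬ (evl p.unpair.1 y.unpair.1 < evl p.unpair.1 y.unpair.2 ∧
        D.G p.unpair.2.unpair.2 (evl p.unpair.1 y.unpair.1) (evl p.unpair.1 y.unpair.2))
  | .ap, p, y => y = fv p.unpair.1 p.unpair.2
  | .cx, p, y => y < p.unpair.2.unpair.2 ∧ ¬ fv p.unpair.1 y ≤ p.unpair.2.unpair.1
  | .nif, p, y => y.unpair.1 ∈ fs p.unpair.1 ∧ y.unpair.2 ∈ fs p.unpair.1 ∧
      y.unpair.1 < y.unpair.2 ∧ y.unpair.2 ≤ p.unpair.2.unpair.1 ∧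
        D.G p.unpair.2.unpair.2 y.unpair.1 y.unpair.2

/-- the stages of the family of functions -/
def FF (D : Dat) : ℕ → Set (ℕ → ℕ)
  | 0 => {id}
  | n + 1 => (FF D n ∪ ⋃ i : Ix, (fun f m => sk (D.rel i) (f m)) '' FF D n) ∪
      Set.image2 (fun f g m => Nat.pair (f m) (g m)) (FF D n) (FF D n)

/-- the functions -/
def Fam (D : Dat) : Set (ℕ → ℕ) := ⋃ n, FF D n

theorem Fam_countable (D : Dat) : (Fam D).Countable := by
  refine Set.countable_iUnion fun n => ?_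
  induction n with
  | zero => exact Set.countable_singleton _
  | succ n ih =>
    exact (ih.union (Set.countable_iUnion fun i => ih.image _)).union (ih.image2 ih _)

theorem FF_mono {D : Dat} {n n' : ℕ} (h : n ≤ n') : FF D n ⊆ FF D n' := by
  induction h with
  | refl => exact Set.Subset.rfl
  | step _ ih => exact ih.trans fun f hf => Or.inl (Or.inl hf)

theorem Fam_id (D : Dat) : id ∈ Fam D := Set.mem_iUnion.2 ⟨0, rfl⟩

theorem Fam_sk {D : Dat} (i : Ix) {f : ℕ → ℕ} (hf : f ∈ Fam D) :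
    (fun m => sk (D.rel i) (f m)) ∈ Fam D := by
  obtain ⟨n, hn⟩ := Set.mem_iUnion.1 hf
  exact Set.mem_iUnion.2 ⟨n + 1, Or.inl (Or.inr (Set.mem_iUnion.2 ⟨i, f, hn, rfl⟩))⟩

theorem Fam_pair {D : Dat} {f g : ℕ → ℕ} (hf : f ∈ Fam D) (hg : g ∈ Fam D) :
    (fun m => Nat.pair (f m) (g m)) ∈ Fam D := by
  obtain ⟨n, hn⟩ := Set.mem_iUnion.1 hf
  obtain ⟨n', hn'⟩ := Set.mem_iUnion.1 hg
  exact Set.mem_iUnion.2 ⟨max n n' + 1, Or.inr ⟨f, FF_mono (le_max_left _ _) hn, g,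
    FF_mono (le_max_right _ _) hn', rfl⟩⟩

/-- the use of a relation -/
theorem Fam_choose {D : Dat} (i : Ix) {f : ℕ → ℕ} (hf : f ∈ Fam D)
    (h : ∀ᶠ m in U, ∃ y, D.rel i (f m) y) :
    ∃ y ∈ Fam D, (∀ᶠ m in U, D.rel i (f m) (y m)) ∧
      ∀ᶠ m in U, ∀ z, D.rel i (f m) z → y m ≤ z :=
  ⟨_, Fam_sk i hf, h.mono fun _ h => sk_spec h, Eventually.of_forall fun _ _ h => sk_le h⟩

end Pool.Agent.U35.RC
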