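import Pool.Agent.U35.RC.Wkl

set_option autoImplicit false

/-!
The bounded Ramsey theorem fails in the model.
-/

namespace Pool.Agent.U35.RC

open Filter
open Pool.Agent.H40.Bsig (Tm Fm Mod Sat Bdd cons std dec dec_pair U sp sp_inj le_sp Codes ae_not
  ae_or U_ge ae_iff IsCode pair)

namespace Gn

variable {D : Dat} {p : Gn D} {hD : D.Ok}

theorem Fam_ev {c i : ℕ → ℕ} (hc : c ∈ Fam D) (hi : i ∈ Fam D) :
    (fun m => evl (c m) (i m)) ∈ Fam D := by
  have h := Fam_sk (D := D) .ev (Fam_pair hc hi)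
  have e : (fun m => sk (D.rel .ev) (Nat.pair (c m) (i m))) = fun m => evl (c m) (i m) := by
    funext m
    unfold sk evl
    congr 1
    ext y
    show sp _ y ∈ fs _ ↔ _
    simp only [Nat.unpair_pair]
    rfl
  rwa [e] at h

theorem get_col (hD : D.Ok) : ∃ γ ∈ Fam D, ∀ᶠ m in U, ∀ x, x ∈ fs (γ m) ↔ x ∈ edg D m := by
  obtain ⟨γ, hγ, h1, -⟩ := Fam_choose (D := D) .bC (f := id) (Fam_id D)
    (Eventually.of_forall fun m => by
      obtain ⟨c, hc⟩ := fs_exists (sp (D.B m) (D.B m) + 1) fun x => x ∈ edg D m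
      refine ⟨c, fun x => (hc x).trans ⟨fun h => h.2, fun h => ⟨?_, h⟩⟩⟩
      obtain ⟨a, b, rfl, h⟩ := h
      obtain ⟨h1, h2⟩ := hD.edge m a b h
      have h3 : (a + b) * (a + b) ≤ (D.B m + D.B m) * (D.B m + D.B m) :=
        Nat.mul_le_mul (by omega) (by omega)
      unfold sp
      omega)
  exact ⟨γ, hγ, h1⟩

theorem no_inf {γ : ℕ → ℕ} (hγ : ∀ᶠ m in U, ∀ x, x ∈ fs (γ m) ↔ x ∈ edg D m) {h : ℕ → ℕ}
    (hh : h ∈ Fam D) (hunb : ∀ x : p.I, ∃ y ∈ (Zs h : Set p.I), (p.M hD).lt x y)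
    (hhom : ∀ x ∈ (Zs h : Set p.I), ∀ y ∈ (Zs h : Set p.I), (p.M hD).lt x y →
      pair (p.M hD) x y ∉ (Zs γ : Set p.I)) : False := by
  obtain ⟨j, hj⟩ := p.avd h hh
  obtain ⟨x0, hx0⟩ := ex_rep (bd_a (p := p) j)
  obtain ⟨y, hy, hlt⟩ := hunb x0
  have hlt' : ∀ᶠ m in U, rep x0 m < rep y m := hlt
  have hy' : ∀ᶠ m in U, rep y m ∈ fs (h m) := hy
  obtain ⟨_, i, hi⟩ := bd_rep y
  have key : ∀ᶠ m in U, rep y m ∈ ini (D.G m) (fs (h m)) := by
    by_contra hcon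
    obtain ⟨w, hw, h1, -⟩ := Fam_choose (D := D) .nif
      (f := fun m => Nat.pair (h m) (Nat.pair (rep y m) (id m)))
      (Fam_pair hh (Fam_pair (bd_rep y).1 (Fam_id D))) (by
        filter_upwards [ae_not.2 hcon, hy'] with m a1 a2
        have a3 : ¬ ∀ a ∈ fs (h m), ∀ b ∈ fs (h m), a < b → b ≤ rep y m → ¬ D.G m a b :=
          fun a3 => a1 ⟨a2, a3⟩
        push Not at a3
        obtain ⟨a, b1, b, b2, b3, b4, b5⟩ := a3
        refine ⟨Nat.pair a b, ?_⟩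
        show _ ∈ fs _ ∧ _ ∈ fs _ ∧ _ < _ ∧ _ ≤ _ ∧ D.G _ _ _
        simp only [Nat.unpair_pair]
        exact ⟨b1, b2, b3, b4, b5⟩)
    have h2 : ∀ᶠ m in U, (w m).unpair.1 ∈ fs (h m) ∧ (w m).unpair.2 ∈ fs (h m) ∧
        (w m).unpair.1 < (w m).unpair.2 ∧ (w m).unpair.2 ≤ rep y m ∧
          D.G m (w m).unpair.1 (w m).unpair.2 := h1.mono fun m h => by
      have h3 : _ ∈ fs _ ∧ _ ∈ fs _ ∧ _ < _ ∧ _ ≤ _ ∧ D.G _ _ _ := h
      simp only [Nat.unpair_pair] at h3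
      exact h3
    obtain ⟨u1, hu1⟩ := ex_rep ((bd_rep y).le (Fam_fst hw) (h2.mono fun m h => by omega))
    obtain ⟨u2, hu2⟩ := ex_rep ((bd_rep y).le (Fam_snd hw) (h2.mono fun m h => h.2.2.2.1))
    refine hhom u1 ?_ u2 ?_ ?_ ?_
    · show ∀ᶠ m in U, rep u1 m ∈ fs (h m)
      filter_upwards [hu1, h2] with m a b
      rw [a]
      exact b.1
    · show ∀ᶠ m in U, rep u2 m ∈ fs (h m)
      filter_upwards [hu2, h2] with m a b
      rw [a]
      exact b.2.1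
    · show ∀ᶠ m in U, _ < _
      filter_upwards [hu1, hu2, h2] with m a b c
      rw [a, b]
      exact c.2.2.1
    · show ∀ᶠ m in U, _ ∈ fs (γ m)
      filter_upwards [hu1, hu2, h2, hγ, pair_ae (hD := hD) u1 u2] with m a b c d e
      rw [e, a, b]
      exact (d _).2 ⟨_, _, rfl, c.2.2.2.2⟩
  refine ae_false ?_
  filter_upwards [hj, key, p.a_in j, p.a_in' (le_max_right i j), hi, p.a_mono (le_max_left i j),
    hlt', hx0] with m a1 a2 a3 a4 a5 a6 a7 a8
  exact a1 _ a2 ⟨⟨_, a3, by omega⟩, _, a4, by omega⟩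

theorem no_hom {γ : ℕ → ℕ} (hγ : ∀ᶠ m in U, ∀ x, x ∈ fs (γ m) ↔ x ∈ edg D m) {l : p.I}
    (hl : ∀ᶠ m in U, rep l m = 2 ^ (3 * m) + 1) : ¬ HasHom (p.M hD) (Zs γ) l := by
  rintro ⟨e, ⟨c, hc, hce⟩, hinc⟩
  have ev : ∀ i : p.I, (p.M hD).lt i l → ∀ᶠ m in U, evl (c m) (rep i m) = rep (e i) m := by
    intro i hi
    have h1 : pair (p.M hD) i (e i) ∈ (Zs c : Set p.I) := by
      rw [← hce]
      exact ⟨i, hi, rfl⟩
    have h2 : ∀ᶠ m in U, sp (rep i m) (rep (e i) m) ∈ fs (c m) := by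
      have h1' : ∀ᶠ m in U, rep (pair (p.M hD) i (e i)) m ∈ fs (c m) := h1
      filter_upwards [h1', pair_ae (hD := hD) i (e i)] with m a b
      rwa [b] at a
    obtain ⟨y, hy⟩ := ex_rep ((bd_rep (e i)).le (Fam_ev hc (bd_rep i).1)
      (h2.mono fun m h => Nat.sInf_le h))
    have h3 : pair (p.M hD) i y ∈ (Zs c : Set p.I) := by
      show ∀ᶠ m in U, _ ∈ fs (c m)
      filter_upwards [h2, hy, pair_ae (hD := hD) i y] with m a b d
      rw [d, b]
      exact Nat.sInf_mem (s := {y | sp (rep i m) y ∈ fs (c m)}) ⟨_, a⟩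
    rw [← hce] at h3
    obtain ⟨i', hi', h4⟩ := h3
    have h5 : ∀ᶠ m in U, sp (rep i m) (rep y m) = sp (rep i' m) (rep (e i') m) := by
      filter_upwards [pair_ae (hD := hD) i y, pair_ae (hD := hD) i' (e i')] with m a b
      rw [← a, ← b, h4]
    have h6 : i = i' := (ext_iff _ _).2 (h5.mono fun m h => (sp_inj h).1)
    subst h6
    filter_upwards [h5, hy] with m a b
    rw [← b]
    exact (sp_inj a).2
  have hP : ∀ᶠ m in U, ∀ i j, i < j → j < rep l m →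
      evl (c m) i < evl (c m) j ∧ D.G m (evl (c m) i) (evl (c m) j) := by
    by_contra hcon
    obtain ⟨w, hw, h1, -⟩ := Fam_choose (D := D) .cf
      (f := fun m => Nat.pair (c m) (Nat.pair (rep l m) (id m)))
      (Fam_pair hc (Fam_pair (bd_rep l).1 (Fam_id D))) (by
        filter_upwards [ae_not.2 hcon] with m a1
        rw [not_forall] at a1
        obtain ⟨i, a1⟩ := a1
        rw [not_forall] at a1
        obtain ⟨j, a1⟩ := a1
        rw [Classical.not_imp, Classical.not_imp] at a1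
        obtain ⟨a2, a3, a4⟩ := a1
        refine ⟨Nat.pair i j, ?_⟩
        show _ < _ ∧ _ < _ ∧ ¬ (_ < _ ∧ D.G _ _ _)
        simp only [Nat.unpair_pair]
        exact ⟨a2, a3, a4⟩)
    have h2 : ∀ᶠ m in U, (w m).unpair.1 < (w m).unpair.2 ∧ (w m).unpair.2 < rep l m ∧
        ¬ (evl (c m) (w m).unpair.1 < evl (c m) (w m).unpair.2 ∧
          D.G m (evl (c m) (w m).unpair.1) (evl (c m) (w m).unpair.2)) := h1.mono fun m h => by
      have h3 : _ < _ ∧ _ < _ ∧ ¬ (_ < _ ∧ D.G _ _ _) := h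
      simp only [Nat.unpair_pair] at h3
      exact h3
    obtain ⟨u1, hu1⟩ := ex_rep ((bd_rep l).le (Fam_fst hw) (h2.mono fun m h => by omega))
    obtain ⟨u2, hu2⟩ := ex_rep ((bd_rep l).le (Fam_snd hw) (h2.mono fun m h => h.2.1.le))
    have l1 : (p.M hD).lt u1 u2 := by
      show ∀ᶠ m in U, _ < _
      filter_upwards [hu1, hu2, h2] with m a b d
      rw [a, b]
      exact d.1
    have l2 : (p.M hD).lt u2 l := by
      show ∀ᶠ m in U, _ < _
      filter_upwards [hu2, h2] with m b d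
      rw [b]
      exact d.2.1
    have l3 : (p.M hD).lt u1 l := by
      have l1' : ∀ᶠ m in U, rep u1 m < rep u2 m := l1
      have l2' : ∀ᶠ m in U, rep u2 m < rep l m := l2
      show ∀ᶠ m in U, _ < _
      filter_upwards [l1', l2'] with m a b
      omega
    obtain ⟨h3, h4⟩ := hinc u1 u2 l1 l2
    have h3' : ∀ᶠ m in U, rep (e u1) m < rep (e u2) m := h3
    have h4' : ∀ᶠ m in U, rep (pair (p.M hD) (e u1) (e u2)) m ∈ fs (γ m) := h4
    refine ae_false ?_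
    filter_upwards [h2, h3', h4', hu1, hu2, ev u1 l3, ev u2 l2, hγ,
      pair_ae (hD := hD) (e u1) (e u2)] with m a1 a2 a3 a4 a5 a6 a7 a8 a9
    rw [a4] at a6
    rw [a5] at a7
    refine a1.2.2 ?_
    rw [a6, a7]
    refine ⟨a2, ?_⟩
    rw [a9] at a3
    obtain ⟨x, y, h5, h6⟩ := (a8 _).1 a3
    obtain ⟨h7, h8⟩ := sp_inj h5
    rw [h7, h8]
    exact h6
  obtain ⟨m, hm1, hm2⟩ := (hP.and hl).exists
  rw [hm2] at hm1
  have hinj : Set.InjOn (evl (c m)) (Finset.range (2 ^ (3 * m) + 1) : Finset ℕ) := by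
    intro x hx y hy hxy
    have hx' := Finset.mem_range.1 (Finset.mem_coe.1 hx)
    have hy' := Finset.mem_range.1 (Finset.mem_coe.1 hy)
    by_contra hne
    rcases lt_or_gt_of_ne hne with h | h
    · exact absurd hxy (hm1 x y h hy').1.ne
    · exact absurd hxy (hm1 y x h hx').1.ne'
  have h1 := hD.clq m ((Finset.range (2 ^ (3 * m) + 1)).image (evl (c m))) (by
    intro x hx y hy hxy
    obtain ⟨i, hi, rfl⟩ := Finset.mem_image.1 hx
    obtain ⟨j, hj, rfl⟩ := Finset.mem_image.1 hy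
    have hi' := Finset.mem_range.1 hi
    have hj' := Finset.mem_range.1 hj
    have hij : i < j := by
      by_contra hlt
      rcases (not_lt.1 hlt).eq_or_lt with h | h
      · rw [h] at hxy
        exact absurd hxy (lt_irrefl _)
      · exact absurd hxy (hm1 j i h hi').1.not_gt
    exact (hm1 i j hij hj').2)
  rw [Finset.card_image_of_injOn hinj, Finset.card_range] at h1
  omega

theorem not_brt : ¬ BRT (p.M hD) := by
  intro H
  obtain ⟨γ, hγ, hγ'⟩ := get_col (D := D) hD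
  obtain ⟨l, hl⟩ := ex_rep (p := p) ⟨Fam_L, 0, p.a_L hD 0⟩
  obtain ⟨_, ⟨h, hh, rfl⟩, hunb, hhom⟩ := H (Zs γ) ⟨γ, hγ, rfl⟩ l (no_hom hγ' hl)
  exact no_inf hγ' hh hunb hhom

end Gn

end Pool.Agent.U35.RC
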