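import Pool.Agent.H40.BsigDefs

set_option autoImplicit false

/-!
Weak König's lemma and the bounded Ramsey theorem for pairs in a structure for second-order
arithmetic.
-/

namespace Pool.Agent.U35.RC

open Pool.Agent.H40.Bsig (Mod pair IsCode)

variable (M : Mod)

/-- `s` is the code of the binary string `Y(0) … Y(n - 1)`: the pair of `n` and the code of the
finite set of all `i < n` in `Y`. -/
def Restr (Y : Set M.N) (n s : M.N) : Prop :=
  ∃ c, IsCode M c {i | M.lt i n ∧ i ∈ Y} ∧ s = pair M n c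

/-- `T` is a tree of (codes of) binary strings with strings of all lengths. -/
def IsBinTree (T : Set M.N) : Prop :=
  (∀ s ∈ T, ∃ Y n, Restr M Y n s) ∧
  (∀ Y n m s s', s ∈ T → Restr M Y n s → M.lt m n → Restr M Y m s' → s' ∈ T) ∧
  ∀ n, ∃ Y, ∃ s ∈ T, Restr M Y n s

/-- Weak König's lemma: each such tree has a path. -/
def WKL : Prop := ∀ T ∈ M.S, IsBinTree M T → ∃ Y ∈ M.S, ∀ n, ∃ s ∈ T, Restr M Y n s

/-- The set `C` of codes of pairs gives a colouring of the pairs `x < y`: the colour is `1` if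
`(x, y)` is in `C`. There is a finite homogeneous set for colour `1` of size `l`: a sequence
`e(0) < ⋯ < e(l - 1)` (whose graph is in the model) with `(e(i), e(j)) ∈ C` for `i < j < l`. -/
def HasHom (C : Set M.N) (l : M.N) : Prop :=
  ∃ e : M.N → M.N, {q | ∃ i, M.lt i l ∧ q = pair M i (e i)} ∈ M.S ∧
    ∀ i j, M.lt i j → M.lt j l → M.lt (e i) (e j) ∧ pair M (e i) (e j) ∈ C

/-- Bounded Ramsey's theorem for pairs and two colours: if no homogeneous set for colour `1` has
size `l` then there is an infinite homogeneous set for colour `0`. -/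
def BRT : Prop := ∀ C ∈ M.S, ∀ l, ¬ HasHom M C l →
  ∃ H ∈ M.S, (∀ x, ∃ y ∈ H, M.lt x y) ∧ ∀ x ∈ H, ∀ y ∈ H, M.lt x y → pair M x y ∉ C

end Pool.Agent.U35.RC
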