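import Pool.Agent.U35.RC.Brt

set_option autoImplicit false

/-!
The model exists.
-/

namespace Pool.Agent.U35.RC

open Filter
open Pool.Agent.H40.Bsig (Mod std sp Codes ex_codes RCA0 Bnd)

theorem exists_g : ∃ g : ℕ → ℕ, Monotone g ∧ (∀ n, (n + 1) ^ 2 ≤ g n) ∧
    ∀ n (X : Set ℕ), (∀ i ∈ X, i < n) → ∃ c, Codes std c X ∧ sp n c ≤ g n := by
  classical
  let b : ℕ → ℕ := fun n => (Finset.range n).powerset.sup fun X => sp n (lc (X : Set ℕ))
  have hle : ∀ n, b n + (n + 1) ^ 2 ≤ ∑ k ∈ Finset.range (n + 1), (b k + (k + 1) ^ 2) := fun n =>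
    Finset.single_le_sum (f := fun k => b k + (k + 1) ^ 2) (fun _ _ => Nat.zero_le _)
      (Finset.mem_range.2 (Nat.lt_succ_self n))
  refine ⟨fun n => ∑ k ∈ Finset.range (n + 1), (b k + (k + 1) ^ 2), ?_, ?_, ?_⟩
  · intro x y hxy
    exact Finset.sum_le_sum_of_subset (Finset.range_mono (by omega))
  · intro n
    exact (Nat.le_add_left _ _).trans (hle n)
  · intro n X hX
    refine ⟨lc X, lc_spec (ex_codes hX), ?_⟩
    have h1 : X = (((Finset.range n).filter (· ∈ X) : Finset ℕ) : Set ℕ) := by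
      ext i
      rw [Finset.mem_coe, Finset.mem_filter, Finset.mem_range]
      exact ⟨fun h => ⟨hX i h, h⟩, fun h => h.2⟩
    have h2 : sp n (lc X) ≤ b n := by
      have h3 := Finset.le_sup (f := fun X : Finset ℕ => sp n (lc (X : Set ℕ)))
        (Finset.mem_powerset.2 (Finset.filter_subset (· ∈ X) (Finset.range n)))
      rw [← h1] at h3
      exact h3
    exact (h2.trans (Nat.le_add_right _ _)).trans (hle n)

theorem exists_Dat (h : S_COMB) : ∃ D : Dat, D.Ok := by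
  obtain ⟨g, h1, h2, h3⟩ := exists_g
  choose G A B h4 h5 h6 h7 h8 using fun m : ℕ => h g h1 m (2 ^ (3 * m) + 1)
  exact ⟨⟨G, A, B, g⟩, h1, h2, h3, h4, h5, h6, h7, h8⟩

theorem main (h : S_COMB) : ∃ M : Mod, RCA0 M ∧ WKL M ∧ Bnd M 2 ∧ ¬ BRT M := by
  obtain ⟨D, hD⟩ := exists_Dat h
  obtain ⟨p⟩ := exists_Gn hD
  exact ⟨p.M hD, Gn.rca, Gn.wkl, Gn.bnd2, Gn.not_brt⟩

end Pool.Agent.U35.RC
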