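import Pool.Agent.U35.RC.Base

set_option autoImplicit false

/-!
The generic cut.
-/

namespace Pool.Agent.U35.RC

open Filter
open Pool.Agent.H40.Bsig (Tm Fm Mod Sat Bdd cons std dec dec_pair U sp sp_inj le_sp Codes ae_not
  ae_or U_ge)

structure Dat.Ok (D : Dat) : Prop where
  mono : Monotone D.g
  sq : ∀ n, (n + 1) ^ 2 ≤ D.g n
  cod : ∀ n (X : Set ℕ), (∀ i ∈ X, i < n) → ∃ c, Codes std c X ∧ sp n c ≤ D.g n
  inA : ∀ m, ∀ a ∈ D.A m, 2 ^ (3 * m) + 1 ≤ a ∧ a < D.B m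
  sparse : ∀ m, ∀ a ∈ D.A m, ∀ b ∈ D.A m, a < b → D.g a ≤ b
  win : ∀ m, Win (D.G m) m (D.A m)
  edge : ∀ m x y, D.G m x y → x < y ∧ y < D.B m
  clq : ∀ m (Q : Finset ℕ), (∀ x ∈ Q, ∀ y ∈ Q, x < y → D.G m x y) → Q.card ≤ 2 ^ (3 * m)

theorem Win.nonempty {G : ℕ → ℕ → Prop} : ∀ {k : ℕ} {A : Finset ℕ}, Win G k A → A.Nonempty
  | 0, _, h => h
  | _ + 1, _, h => h.1

structure Gn (D : Dat) where
  A : ℕ → ℕ → ℕ
  mem : ∀ j, A j ∈ Fam D
  zero : ∀ᶠ m in U, fs (A 0 m) = D.A m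
  win : ∀ j, ∀ᶠ m in U, Win (D.G m) (m - j) (fs (A j m))
  sub : ∀ j, ∀ᶠ m in U, fs (A (j + 1) m) ⊆ fs (A j m)
  inc : ∀ j, ∀ᶠ m in U, ∃ a ∈ fs (A j m), ∀ a' ∈ fs (A (j + 1) m), a < a'
  reg : ∀ f ∈ Fam D, ∀ c ∈ Fam D, ∀ j0, ∃ j ≥ j0, ∀ᶠ m in U,
    (∀ a ∈ fs (A j m), 2 * (c m + 1) ≤ a) → ∀ a ∈ fs (A (j + 1) m), ∀ b ∈ fs (A (j + 1) m),
      min (fv (f m) a) (c m) = min (fv (f m) b) (c m)
  spl : ∀ x ∈ Fam D, ∃ j, ∀ᶠ m in U, (∀ a ∈ fs (A j m), a < x m) ∨ ∀ a ∈ fs (A j m), x m ≤ a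
  avd : ∀ h ∈ Fam D, ∃ j, ∀ᶠ m in U, ∀ x ∈ ini (D.G m) (fs (h m)),
    ¬ ((∃ a ∈ fs (A j m), a ≤ x) ∧ ∃ a ∈ fs (A j m), x ≤ a)

section
variable {D : Dat}

theorem Fam_const (n : ℕ) : (fun _ => n) ∈ Fam D := by
  have h := Fam_sk (D := D) (.const n) (Fam_id D)
  have e : (fun m => sk (D.rel (.const n)) (id m)) = fun _ => n := by
    funext m
    exact sk_spec (P := D.rel (.const n)) ⟨n, rfl⟩
  rwa [e] at h

theorem Fam_fn (i : Ix) (F : ℕ → ℕ) (h : ∀ p y, D.rel i p y ↔ y = F p) {f : ℕ → ℕ}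
    (hf : f ∈ Fam D) : (fun m => F (f m)) ∈ Fam D := by
  have h' := Fam_sk (D := D) i hf
  have e : (fun m => sk (D.rel i) (f m)) = fun m => F (f m) := by
    funext m
    exact (h _ _).1 (sk_spec (P := D.rel i) ⟨F (f m), (h _ _).2 rfl⟩)
  rwa [e] at h'

theorem Fam_fst {f : ℕ → ℕ} (hf : f ∈ Fam D) : (fun m => (f m).unpair.1) ∈ Fam D :=
  Fam_fn .fst (fun p => p.unpair.1) (fun _ _ => Iff.rfl) hf

theorem Fam_snd {f : ℕ → ℕ} (hf : f ∈ Fam D) : (fun m => (f m).unpair.2) ∈ Fam D :=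
  Fam_fn .snd (fun p => p.unpair.2) (fun _ _ => Iff.rfl) hf

theorem Fam_add {f g : ℕ → ℕ} (hf : f ∈ Fam D) (hg : g ∈ Fam D) :
    (fun m => f m + g m) ∈ Fam D := by
  have := Fam_fn (D := D) .add (fun p => p.unpair.1 + p.unpair.2) (fun _ _ => Iff.rfl)
    (Fam_pair hf hg)
  simpa using this

theorem Fam_mul {f g : ℕ → ℕ} (hf : f ∈ Fam D) (hg : g ∈ Fam D) :
    (fun m => f m * g m) ∈ Fam D := by
  have := Fam_fn (D := D) .mul (fun p => p.unpair.1 * p.unpair.2) (fun _ _ => Iff.rfl)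
    (Fam_pair hf hg)
  simpa using this

theorem Fam_B : D.B ∈ Fam D := Fam_fn .bB D.B (fun _ _ => Iff.rfl) (Fam_id D)

theorem Fam_g {f : ℕ → ℕ} (hf : f ∈ Fam D) : (fun m => D.g (f m)) ∈ Fam D :=
  Fam_fn .bg D.g (fun _ _ => Iff.rfl) hf

theorem Fam_L : (fun m => 2 ^ (3 * m) + 1) ∈ Fam D :=
  Fam_fn .bL (fun p => 2 ^ (3 * p) + 1) (fun _ _ => Iff.rfl) (Fam_id D)

/-- the stages of the construction -/
noncomputable def stg (D : Dat) (t : ℕ → ℕ → ℕ) : ℕ → ℕ → ℕ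
  | 0 => fun m => sk (D.rel .bA) m
  | j + 1 => fun m => sk (D.rel (.step j)) (Nat.pair m (Nat.pair (stg D t j m) (t j m)))

theorem exists_Gn (hD : D.Ok) : Nonempty (Gn D) := by
  have hne : Nonempty (Fam D) := ⟨⟨_, Fam_id D⟩⟩
  have hc : Countable (Fam D) := (Fam_countable D).to_subtype
  obtain ⟨e, he⟩ := exists_surjective_nat (Fam D)
  let t : ℕ → ℕ → ℕ := fun j => (e j.unpair.1).1
  have hmem : ∀ j, stg D t j ∈ Fam D := by
    intro j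
    induction j with
    | zero => exact Fam_sk .bA (Fam_id D)
    | succ j ih => exact Fam_sk (.step j) (Fam_pair (Fam_id D) (Fam_pair ih (e j.unpair.1).2))
  have h0 : ∀ m, fs (stg D t 0 m) = D.A m := fun m => by
    obtain ⟨c, hc⟩ := fs_surj (D.A m)
    exact sk_spec (P := D.rel .bA) ⟨c, hc⟩
  have hw : ∀ j, ∀ᶠ m in U, Win (D.G m) (m - j) (fs (stg D t j m)) ∧
      (j < m → Nxt (fs (stg D t j m)) (fs (stg D t (j + 1) m)) (fv (dec (t j m) 0))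
        (dec (t j m) 1) (dec (t j m) 2) (ini (D.G m) (fs (dec (t j m) 3)))) := by
    have step : ∀ j m, j < m → Win (D.G m) (m - j) (fs (stg D t j m)) →
        Nxt (fs (stg D t j m)) (fs (stg D t (j + 1) m)) (fv (dec (t j m) 0))
          (dec (t j m) 1) (dec (t j m) 2) (ini (D.G m) (fs (dec (t j m) 3))) ∧
        Win (D.G m) (m - (j + 1)) (fs (stg D t (j + 1) m)) := by
      intro j m hj hW
      have e1 : m - j = (m - (j + 1)) + 1 := by omega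
      rw [e1] at hW
      obtain ⟨A', h1, h2⟩ := hW.2 (fv (dec (t j m) 0)) (dec (t j m) 1) (dec (t j m) 2)
        (ini (D.G m) (fs (dec (t j m) 3))) (ini_indep _ _)
      obtain ⟨c, hc⟩ := fs_surj A'
      have h3 : D.rel (.step j) (Nat.pair m (Nat.pair (stg D t j m) (t j m)))
          (sk (D.rel (.step j)) (Nat.pair m (Nat.pair (stg D t j m) (t j m)))) := by
        refine sk_spec ⟨c, ?_⟩
        show Nxt _ _ _ _ _ _ ∧ Win _ _ _
        simp only [Nat.unpair_pair]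
        rw [hc]
        exact ⟨h1, h2⟩
      have h4 : Nxt _ _ _ _ _ _ ∧ Win _ _ _ := h3
      simp only [Nat.unpair_pair] at h4
      exact h4
    intro j
    have hW : ∀ᶠ m in U, Win (D.G m) (m - j) (fs (stg D t j m)) := by
      induction j with
      | zero => exact Eventually.of_forall fun m => by rw [h0, Nat.sub_zero]; exact hD.win m
      | succ j ih =>
        filter_upwards [ih, U_ge (j + 1)] with m h1 h2
        exact (step j m (by omega) h1).2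
    filter_upwards [hW] with m h1
    exact ⟨h1, fun h => (step j m h h1).1⟩
  have hn : ∀ j, ∀ᶠ m in U, Nxt (fs (stg D t j m)) (fs (stg D t (j + 1) m))
      (fv (dec (t j m) 0)) (dec (t j m) 1) (dec (t j m) 2)
      (ini (D.G m) (fs (dec (t j m) 3))) := fun j => by
    filter_upwards [hw j, U_ge (j + 1)] with m h1 h2
    exact h1.2 (by omega)
  have hidx : ∀ f ∈ Fam D, ∀ j0, ∃ j ≥ j0, t j = f := by
    intro f hf j0
    obtain ⟨i, hi⟩ := he ⟨f, hf⟩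
    refine ⟨Nat.pair i j0, Nat.right_le_pair _ _, ?_⟩
    show (e (Nat.pair i j0).unpair.1).1 = f
    rw [Nat.unpair_pair]
    simp only
    rw [hi]
  refine ⟨⟨stg D t, hmem, Eventually.of_forall h0, fun j => (hw j).mono fun m h => h.1,
    fun j => (hn j).mono fun m h => h.1, fun j => (hn j).mono fun m h => h.2.1, ?_, ?_, ?_⟩⟩
  · intro f hf c hc j0
    obtain ⟨j, hj, ht⟩ := hidx _ (Fam_pair hf (Fam_pair hc (Fam_const 0))) j0
    refine ⟨j, hj, (hn j).mono fun m h => ?_⟩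
    have h2 := h.2.2.1
    rw [ht] at h2
    simp only [dec_pair, cons] at h2
    exact h2
  · intro x hx
    obtain ⟨j, hj, ht⟩ := hidx _ (Fam_pair (Fam_const 0) (Fam_pair (Fam_const 0)
      (Fam_pair hx (Fam_const 0)))) 0
    refine ⟨j + 1, (hn j).mono fun m h => ?_⟩
    have h2 := h.2.2.2.1
    rw [ht] at h2
    simp only [dec_pair, cons] at h2
    exact h2
  · intro x hx
    obtain ⟨j, hj, ht⟩ := hidx _ (Fam_pair (Fam_const 0) (Fam_pair (Fam_const 0)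
      (Fam_pair (Fam_const 0) (Fam_pair hx (Fam_const 0))))) 0
    refine ⟨j + 1, (hn j).mono fun m h => ?_⟩
    have h2 := h.2.2.2.2
    rw [ht] at h2
    simp only [dec_pair, cons] at h2
    exact h2

end

namespace Gn

variable {D : Dat} (p : Gn D)

/-- the least elements -/
noncomputable def a (j m : ℕ) : ℕ := sk (D.rel .mn) (p.A j m)

theorem a_mem (j : ℕ) : p.a j ∈ Fam D := Fam_sk .mn (p.mem j)

theorem a_in (j : ℕ) : ∀ᶠ m in U, p.a j m ∈ fs (p.A j m) := (p.win j).mono fun m h => by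
  obtain ⟨x, hx⟩ := h.nonempty
  exact sk_spec (P := D.rel .mn) ⟨x, hx⟩

theorem a_le (j m : ℕ) {z : ℕ} (hz : z ∈ fs (p.A j m)) : p.a j m ≤ z :=
  sk_le (P := D.rel .mn) hz

theorem a_lt (j : ℕ) : ∀ᶠ m in U, p.a j m < p.a (j + 1) m := by
  filter_upwards [p.inc j, p.a_in (j + 1)] with m h1 h2
  obtain ⟨x, hx, h3⟩ := h1
  exact (p.a_le j m hx).trans_lt (h3 _ h2)

theorem sub' {i j : ℕ} (h : i ≤ j) : ∀ᶠ m in U, fs (p.A j m) ⊆ fs (p.A i m) := by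
  induction h with
  | refl => exact Eventually.of_forall fun _ => Finset.Subset.refl _
  | step _ ih =>
    filter_upwards [ih, p.sub _] with m h1 h2
    exact h2.trans h1

theorem a_in' {i j : ℕ} (h : i ≤ j) : ∀ᶠ m in U, p.a j m ∈ fs (p.A i m) := by
  filter_upwards [p.sub' h, p.a_in j] with m h1 h2
  exact h1 h2

theorem a_mono {i j : ℕ} (h : i ≤ j) : ∀ᶠ m in U, p.a i m ≤ p.a j m :=
  (p.a_in' h).mono fun _ h => p.a_le _ _ h

theorem a_g (hD : D.Ok) (j : ℕ) : ∀ᶠ m in U, D.g (p.a j m) ≤ p.a (j + 1) m := by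
  filter_upwards [p.a_lt j, p.a_in' (Nat.zero_le j), p.a_in' (Nat.zero_le (j + 1)), p.zero] with
    m h1 h2 h3 h4
  rw [h4] at h2 h3
  exact hD.sparse m _ h2 _ h3 h1

theorem a_B (hD : D.Ok) (j : ℕ) : ∀ᶠ m in U, p.a j m < D.B m := by
  filter_upwards [p.a_in' (Nat.zero_le j), p.zero] with m h2 h4
  rw [h4] at h2
  exact (hD.inA m _ h2).2

theorem a_L (hD : D.Ok) (j : ℕ) : ∀ᶠ m in U, 2 ^ (3 * m) + 1 ≤ p.a j m := by
  filter_upwards [p.a_in' (Nat.zero_le j), p.zero] with m h2 h4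
  rw [h4] at h2
  exact (hD.inA m _ h2).1

/-- the numbers in the cut -/
def Bd (f : ℕ → ℕ) : Prop := f ∈ Fam D ∧ ∃ j, ∀ᶠ m in U, f m ≤ p.a j m

variable {p}

theorem Bd.mem {f : ℕ → ℕ} (h : p.Bd f) : f ∈ Fam D := h.1

theorem Bd.le {f g : ℕ → ℕ} (h : p.Bd g) (hf : f ∈ Fam D) (hfg : ∀ᶠ m in U, f m ≤ g m) :
    p.Bd f := by
  obtain ⟨_, j, hj⟩ := h
  exact ⟨hf, j, by filter_upwards [hfg, hj] with m h1 h2 using h1.trans h2⟩

theorem bd_a (j : ℕ) : p.Bd (p.a j) := ⟨p.a_mem j, j, Eventually.of_forall fun _ => le_rfl⟩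

theorem Bd.two {f g : ℕ → ℕ} (h : p.Bd f) (h' : p.Bd g) :
    ∃ j, (∀ᶠ m in U, f m ≤ p.a j m) ∧ ∀ᶠ m in U, g m ≤ p.a j m := by
  obtain ⟨_, j, hj⟩ := h
  obtain ⟨_, i, hi⟩ := h'
  refine ⟨max j i, ?_, ?_⟩
  · filter_upwards [hj, p.a_mono (le_max_left j i)] with m h1 h2 using h1.trans h2
  · filter_upwards [hi, p.a_mono (le_max_right j i)] with m h1 h2 using h1.trans h2

theorem bd_const (hD : D.Ok) (n : ℕ) : p.Bd fun _ => n := by
  refine ⟨Fam_const n, 0, ?_⟩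
  filter_upwards [p.a_L hD 0, U_ge n] with m h1 h2
  have h3 : m < 2 ^ m := Nat.lt_two_pow_self
  have h4 : 2 ^ m ≤ 2 ^ (3 * m) := Nat.pow_le_pow_right (by norm_num) (by omega)
  omega

theorem Bd.g {f : ℕ → ℕ} (hD : D.Ok) (h : p.Bd f) : p.Bd fun m => D.g (f m) := by
  obtain ⟨h1, j, hj⟩ := h
  refine ⟨Fam_g h1, j + 1, ?_⟩
  filter_upwards [hj, p.a_g hD j] with m h1 h2
  exact (hD.mono h1).trans h2

theorem Bd.sq_of {f g k : ℕ → ℕ} (hD : D.Ok) (h : p.Bd f) (h' : p.Bd g) (hk : k ∈ Fam D)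
    (e : ∀ m, k m ≤ (max (f m) (g m) + 1) ^ 2) : p.Bd k := by
  obtain ⟨j, h1, h2⟩ := h.two h'
  refine ⟨hk, j + 1, ?_⟩
  filter_upwards [h1, h2, p.a_g hD j] with m a1 a2 a3
  refine (e m).trans ((Nat.pow_le_pow_left (Nat.add_le_add_right (max_le a1 a2) 1) 2).trans
    ((hD.sq _).trans a3))

theorem Bd.add {f g : ℕ → ℕ} (hD : D.Ok) (h : p.Bd f) (h' : p.Bd g) : p.Bd fun m => f m + g m :=
  h.sq_of hD h' (Fam_add h.1 h'.1) fun m => by
    nlinarith [le_max_left (f m) (g m), le_max_right (f m) (g m)]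

theorem Bd.mul {f g : ℕ → ℕ} (hD : D.Ok) (h : p.Bd f) (h' : p.Bd g) : p.Bd fun m => f m * g m :=
  h.sq_of hD h' (Fam_mul h.1 h'.1) fun m =>
    (Nat.mul_le_mul (le_max_left _ _) (le_max_right _ _)).trans (by
      generalize max (f m) (g m) = t
      nlinarith)

theorem Bd.pair {f g : ℕ → ℕ} (hD : D.Ok) (h : p.Bd f) (h' : p.Bd g) :
    p.Bd fun m => Nat.pair (f m) (g m) :=
  h.sq_of hD h' (Fam_pair h.1 h'.1) fun _ => (Nat.pair_lt_max_add_one_sq _ _).le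

theorem Bd.lt_B {f : ℕ → ℕ} (hD : D.Ok) (h : p.Bd f) : ∀ᶠ m in U, f m < D.B m := by
  obtain ⟨_, j, hj⟩ := h
  filter_upwards [hj, p.a_B hD j] with m h1 h2 using h1.trans_lt h2

/-- a function which is not in the cut is above it -/
theorem above {f : ℕ → ℕ} (hf : f ∈ Fam D) (h : ¬ p.Bd f) (j : ℕ) : ∀ᶠ m in U, p.a j m < f m := by
  have : ¬ ∀ᶠ m in U, f m ≤ p.a j m := fun h' => h ⟨hf, j, h'⟩
  exact (ae_not.2 this).mono fun m h => not_le.1 h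

end Gn

end Pool.Agent.U35.RC
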