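import Pool.Agent.U35.RC.Gen

set_option autoImplicit false

/-!
The model given by the generic cut.
-/

namespace Pool.Agent.U35.RC

open Filter
open Pool.Agent.H40.Bsig (Tm Fm Mod Sat Bdd cons std dec dec_pair U sp sp_inj le_sp Codes ae_not
  ae_or U_ge Basic cons_congr sat_congr ev_congr)

namespace Gn

variable {D : Dat} (p : Gn D)

def sto : Setoid {f // p.Bd f} where
  r f g := ∀ᶠ m in U, f.1 m = g.1 m
  iseqv := ⟨fun _ => Eventually.of_forall fun _ => rfl, fun h => h.mono fun _ => Eq.symm,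
    fun h h' => by filter_upwards [h, h'] with x a b using a.trans b⟩

def I : Type := Quotient p.sto

variable {p}

noncomputable def rep (x : p.I) : ℕ → ℕ := (Quotient.out x).1
theorem bd_rep (x : p.I) : p.Bd (rep x) := (Quotient.out x).2
def mkI (f : ℕ → ℕ) (h : p.Bd f) : p.I := Quotient.mk p.sto ⟨f, h⟩
theorem rep_mk (f : ℕ → ℕ) (h : p.Bd f) : ∀ᶠ m in U, rep (mkI f h) m = f m :=
  Quotient.mk_out (s := p.sto) ⟨f, h⟩
theorem ext_iff (x y : p.I) : x = y ↔ ∀ᶠ m in U, rep x m = rep y m :=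
  (Quotient.out_equiv_out (s := p.sto)).symm

theorem ex_rep {f : ℕ → ℕ} (h : p.Bd f) : ∃ x : p.I, ∀ᶠ m in U, rep x m = f m := ⟨_, rep_mk f h⟩

def Zs (c : ℕ → ℕ) : Set p.I := {x | ∀ᶠ m in U, rep x m ∈ fs (c m)}

variable (p)

noncomputable abbrev M (hD : D.Ok) : Mod where
  N := p.I
  zero := mkI _ (bd_const hD 0)
  one := mkI _ (bd_const hD 1)
  add x y := mkI _ ((bd_rep x).add hD (bd_rep y))
  mul x y := mkI _ ((bd_rep x).mul hD (bd_rep y))
  lt x y := ∀ᶠ m in U, rep x m < rep y m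
  S := {Z | ∃ c ∈ Fam D, Z = Zs c}

variable {p} {hD : D.Ok}

theorem los_tm (t : Tm) (v : ℕ → p.I) (u : ℕ → ℕ → ℕ)
    (h : ∀ i < t.sup, ∀ᶠ m in U, rep (v i) m = u m i) :
    ∀ᶠ m in U, rep (t.ev (p.M hD) v) m = t.ev std (u m) := by
  induction t with
  | var i => exact h i (Nat.lt_succ_self i)
  | zero => exact rep_mk _ _
  | one => exact rep_mk _ _
  | add s t a b =>
    filter_upwards [a fun i hi => h i (lt_max_of_lt_left hi),
      b fun i hi => h i (lt_max_of_lt_right hi),
      rep_mk _ ((bd_rep (s.ev (p.M hD) v)).add hD (bd_rep (t.ev (p.M hD) v)))] with m a b c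
    exact c.trans (congrArg₂ _ a b)
  | mul s t a b =>
    filter_upwards [a fun i hi => h i (lt_max_of_lt_left hi),
      b fun i hi => h i (lt_max_of_lt_right hi),
      rep_mk _ ((bd_rep (s.ev (p.M hD) v)).mul hD (bd_rep (t.ev (p.M hD) v)))] with m a b c
    exact c.trans (congrArg₂ _ a b)

/-- the parameters are coded -/
structure Prm (p : Gn D) (n : ℕ) (v : ℕ → p.I) (V : ℕ → Set p.I) (d e : ℕ → ℕ) : Prop where
  d_mem : d ∈ Fam D
  e_mem : e ∈ Fam D
  val : ∀ i < n, ∀ᶠ m in U, rep (v i) m = dec (d m) i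
  set : ∀ i < n, ∀ x : p.I, x ∈ V i ↔ ∀ᶠ m in U, rep x m ∈ fs (dec (e m) i)

theorem Prm.mono {n n' : ℕ} {v : ℕ → p.I} {V : ℕ → Set p.I} {d e : ℕ → ℕ} (h : Prm p n v V d e)
    (hn : n' ≤ n) : Prm p n' v V d e :=
  ⟨h.1, h.2, fun i hi => h.3 i (hi.trans_le hn), fun i hi => h.4 i (hi.trans_le hn)⟩

theorem Prm.cons {n : ℕ} {v : ℕ → p.I} {V : ℕ → Set p.I} {d e : ℕ → ℕ} (h : Prm p n v V d e)
    {x : p.I} {f : ℕ → ℕ} (hf : f ∈ Fam D) (hx : ∀ᶠ m in U, rep x m = f m) :
    Prm p n (Pool.Agent.H40.Bsig.cons x v) V (fun m => Nat.pair (f m) (d m)) e := by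
  refine ⟨Fam_pair hf h.1, h.2, ?_, h.4⟩
  rintro (_ | i) hi
  · filter_upwards [hx] with m h1
    rw [dec_pair]
    exact h1
  · filter_upwards [h.3 i (by omega)] with m h1
    rw [dec_pair]
    exact h1

theorem exists_dec (n : ℕ) : ∀ u : ℕ → ℕ → ℕ, (∀ i, u i ∈ Fam D) →
    ∃ d ∈ Fam D, ∀ i < n, ∀ m, dec (d m) i = u i m := by
  induction n with
  | zero => exact fun _ _ => ⟨_, Fam_const 0, fun _ h => absurd h (by simp)⟩
  | succ n ih =>
    intro u hu
    obtain ⟨d, h1, h2⟩ := ih (fun i => u (i + 1)) fun i => hu _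
    refine ⟨_, Fam_pair (hu 0) h1, ?_⟩
    rintro (_ | i) hi m
    · rw [dec_pair]
      rfl
    · rw [dec_pair]
      exact h2 i (by omega) m

theorem exists_Prm (n : ℕ) (v : ℕ → p.I) (V : ℕ → Set p.I) (hV : ∀ i, V i ∈ (p.M hD).S) :
    ∃ d e, Prm p n v V d e := by
  obtain ⟨d, h1, h2⟩ := exists_dec (D := D) n (fun i => rep (v i)) fun i => (bd_rep _).1
  choose c hc hc' using hV
  obtain ⟨e, h3, h4⟩ := exists_dec (D := D) n c hc
  refine ⟨d, e, h1, h3, fun i hi => Eventually.of_forall fun m => (h2 i hi m).symm,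
    fun i hi x => ?_⟩
  rw [hc' i]
  show (∀ᶠ m in U, rep x m ∈ fs (c i m)) ↔ _
  refine eventually_congr (Eventually.of_forall fun m => ?_)
  rw [h4 i hi m]

theorem los {θ : Fm} (hθ : Bdd θ) : ∀ {n : ℕ} {v : ℕ → p.I} {V : ℕ → Set p.I} {d e : ℕ → ℕ},
    θ.sup ≤ n → Prm p n v V d e →
      (Sat (p.M hD) θ v V ↔ ∀ᶠ m in U, Sat std θ (dec (d m)) (st (e m))) := by
  induction hθ with
  | eq s t =>
    intro n v V d e hn h
    refine (ext_iff _ _).trans (eventually_congr ?_)
    filter_upwards [los_tm (hD := hD) s v (fun m => dec (d m)) fun i hi => h.3 i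
        ((lt_max_of_lt_left hi).trans_le hn), los_tm (hD := hD) t v (fun m => dec (d m))
          fun i hi => h.3 i ((lt_max_of_lt_right hi).trans_le hn)] with m h1 h2
    rw [h1, h2]
    rfl
  | lt s t =>
    intro n v V d e hn h
    refine eventually_congr ?_
    filter_upwards [los_tm (hD := hD) s v (fun m => dec (d m)) fun i hi => h.3 i
        ((lt_max_of_lt_left hi).trans_le hn), los_tm (hD := hD) t v (fun m => dec (d m))
          fun i hi => h.3 i ((lt_max_of_lt_right hi).trans_le hn)] with m h1 h2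
    rw [h1, h2]
    rfl
  | mem s i =>
    intro n v V d e hn h
    refine (h.4 i ((lt_max_of_lt_right (Nat.lt_succ_self i)).trans_le hn) _).trans
      (eventually_congr ?_)
    filter_upwards [los_tm (hD := hD) s v (fun m => dec (d m)) fun i hi => h.3 i
        ((lt_max_of_lt_left hi).trans_le hn)] with m h1
    rw [h1]
    rfl
  | neg _ ih =>
    intro n v V d e hn h
    exact (not_congr (ih hn h)).trans ae_not.symm
  | and _ _ a b =>
    intro n v V d e hn h
    exact (and_congr (a ((le_max_left _ _).trans hn) h) (b ((le_max_right _ _).trans hn) h)).trans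
      eventually_and.symm
  | @ball t φ _ ih =>
    intro n v V d e hn h
    have hφ : φ.sup ≤ n := (le_max_right _ _).trans hn
    have ht := los_tm (hD := hD) t v (fun m => dec (d m)) fun i hi => h.3 i
        ((lt_max_of_lt_left hi).trans_le hn)
    have key : ∀ x : p.I, Sat (p.M hD) φ (cons x v) V ↔
        ∀ᶠ m in U, Sat std φ (cons (rep x m) (dec (d m))) (st (e m)) := fun x => by
      rw [ih hφ (h.cons (bd_rep x).1 (Eventually.of_forall fun _ => rfl))]
      simp only [dec_pair]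
    constructor
    · intro h1
      by_contra hc
      have hc' := ae_not.2 hc
      obtain ⟨y, hy, h2, -⟩ := Fam_choose (D := D) (.los φ)
        (f := fun m => Nat.pair (rep (t.ev (p.M hD) v) m) (Nat.pair (e m) (d m)))
        (Fam_pair (bd_rep _).1 (Fam_pair h.2 h.1)) (by
          filter_upwards [hc', ht] with m h2 h3
          have h4 : ¬ ∀ x, x < t.ev std (dec (d m)) →
              Sat std φ (cons x (dec (d m))) (st (e m)) := h2
          push Not at h4
          obtain ⟨x, h5, h6⟩ := h4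
          refine ⟨x, ?_⟩
          show x < dec _ 0 ∧ ¬ Sat std φ _ (st (dec _ 1))
          simp only [dec_pair, cons]
          rw [h3]
          exact ⟨h5, h6⟩)
      have h2' : ∀ᶠ m in U, y m < rep (t.ev (p.M hD) v) m ∧
          ¬ Sat std φ (cons (y m) (dec (d m))) (st (e m)) := h2.mono fun m h3 => by
        have h4 : y m < dec _ 0 ∧ ¬ Sat std φ _ (st (dec _ 1)) := h3
        simp only [dec_pair, cons] at h4
        exact h4
      obtain ⟨x, hx⟩ := ex_rep ((bd_rep (t.ev (p.M hD) v)).le hy (h2'.mono fun m h => h.1.le))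
      have h5 := (key x).1 (h1 x (by
        filter_upwards [h2', hx] with m a b
        rw [b]
        exact a.1))
      obtain ⟨m, a1, a2, a3⟩ := (h5.and (h2'.and hx)).exists
      rw [a3] at a1
      exact a2.2 a1
    · intro h1 x hx
      rw [key]
      have hx' : ∀ᶠ m in U, rep x m < rep (t.ev (p.M hD) v) m := hx
      filter_upwards [h1, hx', ht] with m a b c
      rw [c] at b
      exact a _ b

theorem V0_mem (i : ℕ) : (fun _ => Zs fun _ => 0 : ℕ → Set p.I) i ∈ (p.M hD).S :=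
  ⟨_, Fam_const 0, rfl⟩

theorem basic : Basic (p.M hD) := by
  have key : ∀ {θ : Fm}, Bdd θ → (∀ u W, Sat std θ u W) → ∀ x y : p.I,
      Sat (p.M hD) θ (cons x fun _ => y) fun _ => Zs fun _ => 0 := fun {θ} hθ h x y => by
    obtain ⟨d, e, hp⟩ := exists_Prm (p := p) (hD := hD) θ.sup (cons x fun _ => y) _ V0_mem
    exact (los hθ le_rfl hp).2 (Eventually.of_forall fun _ => h _ _)
  refine ⟨fun n => key (.neg (.eq (.add (.var 0) .one) .zero)) (fun u _ => Nat.succ_ne_zero _) n n,
    fun m n e => by_contra fun e' => key (.neg (.and (.eq (.add (.var 0) .one) (.add (.var 1) .one))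
      (.neg (.eq (.var 0) (.var 1))))) (fun u _ h => h.2 (Nat.succ_injective h.1)) m n ⟨e, e'⟩,
    fun m => key (.eq (.add (.var 0) .zero) (.var 0)) (fun _ _ => rfl) m m,
    key (.eq (.add (.var 0) (.add (.var 1) .one)) (.add (.add (.var 0) (.var 1)) .one))
      fun _ _ => rfl,
    fun m => key (.eq (.mul (.var 0) .zero) .zero) (fun _ _ => rfl) m m,
    key (.eq (.mul (.var 0) (.add (.var 1) .one)) (.add (.mul (.var 0) (.var 1)) (.var 0)))
      fun _ _ => rfl,
    fun m => key (.neg (.lt (.var 0) .zero)) (fun u _ => Nat.not_lt_zero _) m m, fun m n => ?_⟩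
  rw [ext_iff]
  refine (eventually_congr ?_).trans ae_or
  filter_upwards [rep_mk _ ((bd_rep n).add hD (bd_rep (p.M hD).one)),
    rep_mk _ (bd_const (p := p) hD 1)] with k a b
  have a' : rep ((p.M hD).add n (p.M hD).one) k = rep n k + 1 := a.trans (congrArg _ b)
  omega

theorem succ_ae (x : p.I) : ∀ᶠ m in U, rep ((p.M hD).add x (p.M hD).one) m = rep x m + 1 := by
  filter_upwards [rep_mk _ ((bd_rep x).add hD (bd_rep (p.M hD).one)),
    rep_mk _ (bd_const (p := p) hD 1)] with k a b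
  exact a.trans (congrArg _ b)

theorem zero_ae : ∀ᶠ m in U, rep (p.M hD).zero m = 0 := rep_mk _ _

end Gn

end Pool.Agent.U35.RC
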