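import Pool.Agent.U35.RC.Mo

set_option autoImplicit false

/-!
The cut is regular: induction, comprehension and bounding.
-/

namespace Pool.Agent.U35.RC

open Filter
open Pool.Agent.H40.Bsig (Tm Fm Mod Sat Bdd cons std dec dec_pair U sp sp_inj le_sp Codes ae_not
  ae_or U_ge Basic Lv Ind Bnd DCA RCA0)

namespace Gn

variable {D : Dat} {p : Gn D} {hD : D.Ok}

/-- bounded by an element of the cut -/
def Low (p : Gn D) (f : ℕ → ℕ) : Prop := ∃ j, ∀ᶠ m in U, f m ≤ p.a j m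

theorem Low.of_le {f g : ℕ → ℕ} (h : Low p g) (e : ∀ᶠ m in U, f m ≤ g m) : Low p f := by
  obtain ⟨j, hj⟩ := h
  exact ⟨j, by filter_upwards [e, hj] with m h1 h2 using h1.trans h2⟩

theorem not_low {f : ℕ → ℕ} (h : ¬ Low p f) (j : ℕ) : ∀ᶠ m in U, p.a j m < f m :=
  (ae_not.2 fun h' => h ⟨j, h'⟩).mono fun _ h => not_le.1 h

theorem ae_false (h : ∀ᶠ _ in (U : Filter ℕ), False) : False := h.exists.elim fun _ h => h

theorem Fam_ap {f x : ℕ → ℕ} (hf : f ∈ Fam D) (hx : x ∈ Fam D) :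
    (fun m => fv (f m) (x m)) ∈ Fam D := by
  have := Fam_fn (D := D) .ap (fun p => fv p.unpair.1 p.unpair.2) (fun _ _ => Iff.rfl)
    (Fam_pair hf hx)
  simpa using this

theorem reg' (hD : D.Ok) {f c : ℕ → ℕ} (hf : f ∈ Fam D) (hc : p.Bd c) : ∃ j, ∀ i ≥ j, ∀ᶠ m in U,
    min (fv (f m) (p.a i m)) (c m) = min (fv (f m) (p.a j m)) (c m) := by
  have h1 : p.Bd fun m => 2 * (c m + 1) := (bd_const hD 2).mul hD (hc.add hD (bd_const hD 1))
  obtain ⟨_, j0, hj0⟩ := h1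
  obtain ⟨j, hj, h2⟩ := p.reg f hf c hc.1 j0
  refine ⟨j + 1, fun i hi => ?_⟩
  filter_upwards [h2, hj0, p.a_mono hj, p.a_in' hi, p.a_in (j + 1)] with m a1 a2 a3 a4 a5
  exact a1 (fun x hx => (a2.trans a3).trans (p.a_le j m hx)) _ a4 _ a5

/-- semiregularity -/
theorem semi (hD : D.Ok) {f s : ℕ → ℕ} (hf : f ∈ Fam D) (hs : p.Bd s) : ∃ j, ∀ x : ℕ → ℕ,
    (∀ᶠ m in U, x m < s m) → Low p (fun m => fv (f m) (x m)) →
      ∀ᶠ m in U, fv (f m) (x m) ≤ p.a j m := by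
  obtain ⟨y, hy, h1, -⟩ := Fam_choose (D := D) .sr
    (f := fun m => Nat.pair (s m) (Nat.pair (D.B m) (f m)))
    (Fam_pair hs.1 (Fam_pair Fam_B hf)) (Eventually.of_forall fun m => by
      obtain ⟨c, hc⟩ := fv_surj (hsr (s m) (f m)) (D.B m)
      refine ⟨c, ?_⟩
      show ∀ z < _, _ = _
      simp only [Nat.unpair_pair]
      exact hc)
  have h2 : ∀ᶠ m in U, ∀ z < D.B m, fv (y m) z = hsr (s m) (f m) z := h1.mono fun m h => by
    have h3 : ∀ z < _, _ = _ := h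
    simp only [Nat.unpair_pair] at h3
    exact h3
  obtain ⟨j, hj⟩ := reg' hD hy hs
  refine ⟨j, fun x hx hl => ?_⟩
  by_contra hc
  have hc' := ae_not.2 hc
  obtain ⟨i, hi⟩ := hl
  refine ae_false ?_
  filter_upwards [hc', hi, hx, h2, hj (max i j + 1) (by omega), p.a_B hD j,
    p.a_B hD (max i j + 1), p.a_mono (le_max_left i j), p.a_lt (max i j)] with
    m a1 a2 a3 a4 a5 a6 a7 a8 a9
  rw [a4 _ a6, a4 _ a7, min_eq_left (hsr_le _ _ _), min_eq_left (hsr_le _ _ _)] at a5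
  have b1 := hsr_spec (s := s m) (f := f m) (z := p.a j m) ⟨x m, a3, (not_le.1 a1).le⟩
  rw [← a5] at b1
  have b2 := hsr_lt b1.1
  have b3 := b1.2.2 (x m) a3 (not_le.1 a1).le
  omega

/-- the internal form -/
theorem semi' (hD : D.Ok) {f s : ℕ → ℕ} (hf : f ∈ Fam D) (hs : p.Bd s)
    (h : ∀ x : ℕ → ℕ, p.Bd x → (∀ᶠ m in U, x m < s m) → Low p (fun m => fv (f m) (x m))) :
    ∃ j, ∀ᶠ m in U, ∀ x < s m, fv (f m) x ≤ p.a j m := by
  obtain ⟨j, hj⟩ := semi hD hf hs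
  refine ⟨j, ?_⟩
  by_contra hc
  have hc' := ae_not.2 hc
  obtain ⟨y, hy, h1, -⟩ := Fam_choose (D := D) .cx
    (f := fun m => Nat.pair (f m) (Nat.pair (p.a j m) (s m)))
    (Fam_pair hf (Fam_pair (p.a_mem j) hs.1)) (hc'.mono fun m h => by
      push Not at h
      obtain ⟨x, h2, h3⟩ := h
      refine ⟨x, ?_⟩
      show x < _ ∧ ¬ _ ≤ _
      simp only [Nat.unpair_pair]
      exact ⟨h2, not_le.2 h3⟩)
  have h2 : ∀ᶠ m in U, y m < s m ∧ ¬ fv (f m) (y m) ≤ p.a j m := h1.mono fun m h => by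
    have h3 : y m < _ ∧ ¬ _ ≤ _ := h
    simp only [Nat.unpair_pair] at h3
    exact h3
  have h3 := hj y (h2.mono fun _ h => h.1) (h y (hs.le hy (h2.mono fun _ h => h.1.le))
    (h2.mono fun _ h => h.1))
  obtain ⟨m, a1, a2⟩ := (h2.and h3).exists
  exact a1.2 a2

section
variable {n : ℕ} {v : ℕ → p.I} {V : ℕ → Set p.I} {d e : ℕ → ℕ}

theorem R3_iff {θ : Fm} (hθ : Bdd θ) (hn : θ.sup ≤ n) (h : Prm p n v V d e) (x y : p.I) :
    Sat (p.M hD) θ (cons y (cons x v)) V ↔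
      ∀ᶠ m in U, R3 false θ (Nat.pair (e m) (d m)) (rep x m) (rep y m) := by
  rw [los hθ hn ((h.cons (bd_rep x).1 (Eventually.of_forall fun _ => rfl)).cons (bd_rep y).1
    (Eventually.of_forall fun _ => rfl))]
  refine eventually_congr (Eventually.of_forall fun m => ?_)
  simp only [R3, dec_pair, Nat.unpair_pair]

theorem R3_iff' {θ : Fm} (hθ : Bdd θ) (hn : θ.sup ≤ n) (h : Prm p n v V d e) (x y w z : p.I) :
    Sat (p.M hD) θ (cons z (cons w (cons y (cons x v)))) V ↔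
      ∀ᶠ m in U, ¬ R3 true θ (Nat.pair (e m) (Nat.pair (rep x m) (d m)))
        (Nat.pair (rep y m) (rep w m)) (rep z m) := by
  rw [los hθ hn ((((h.cons (bd_rep x).1 (Eventually.of_forall fun _ => rfl)).cons (bd_rep y).1
    (Eventually.of_forall fun _ => rfl)).cons (bd_rep w).1
    (Eventually.of_forall fun _ => rfl)).cons (bd_rep z).1 (Eventually.of_forall fun _ => rfl))]
  refine eventually_congr (Eventually.of_forall fun m => ?_)
  simp only [R3, dec_pair, Nat.unpair_pair, not_not]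

/-- a witness below a bound is a member of the family -/
theorem get_wit {k : Bool} {θ : Fm} {s x q : ℕ → ℕ} (hs : s ∈ Fam D) (hx : x ∈ Fam D)
    (hq : q ∈ Fam D) (h : ∀ᶠ m in U, ∃ y < s m, R3 k θ (q m) (x m) y) :
    ∃ y ∈ Fam D, ∀ᶠ m in U, y m < s m ∧ R3 k θ (q m) (x m) (y m) ∧
      ∀ z, R3 k θ (q m) (x m) z → y m ≤ z := by
  obtain ⟨y, hy, h1, h2⟩ := Fam_choose (D := D) (.ar k θ)
    (f := fun m => Nat.pair (s m) (Nat.pair (x m) (q m)))
    (Fam_pair hs (Fam_pair hx hq)) (h.mono fun m h => by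
      obtain ⟨y, h1, h2⟩ := h
      refine ⟨y, ?_⟩
      show y < _ ∧ R3 k θ _ _ _
      simp only [Nat.unpair_pair]
      exact ⟨h1, h2⟩)
  refine ⟨y, hy, ?_⟩
  filter_upwards [h1, h2] with m a1 a2
  have h3 : y m < _ ∧ R3 k θ _ _ _ := a1
  simp only [Nat.unpair_pair] at h3
  refine ⟨h3.1, h3.2, fun z hz => ?_⟩
  by_contra hlt
  have h4 := a2 z (by
    show z < _ ∧ R3 k θ _ _ _
    simp only [Nat.unpair_pair]
    exact ⟨(not_le.1 hlt).trans h3.1, hz⟩)
  exact hlt h4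

/-- the function of the least witnesses -/
theorem get_fun {k : Bool} {θ : Fm} {s q : ℕ → ℕ} (hs : s ∈ Fam D) (hq : q ∈ Fam D) :
    ∃ f ∈ Fam D, ∀ᶠ m in U, ∀ x < s m, fv (f m) x = lw (D.B m) (R3 k θ (q m) x) := by
  obtain ⟨y, hy, h1, -⟩ := Fam_choose (D := D) (.cr k θ)
    (f := fun m => Nat.pair (s m) (Nat.pair (D.B m) (q m)))
    (Fam_pair hs (Fam_pair Fam_B hq)) (Eventually.of_forall fun m => by
      obtain ⟨c, hc⟩ := fv_surj (fun x => lw (D.B m) (R3 k θ (q m) x)) (s m)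
      refine ⟨c, ?_⟩
      show ∀ x < _, _ = _
      simp only [Nat.unpair_pair]
      exact hc)
  refine ⟨y, hy, h1.mono fun m h => ?_⟩
  have h3 : ∀ x < _, _ = _ := h
  simp only [Nat.unpair_pair] at h3
  exact h3

end

theorem ind1 : Ind (p.M hD) 1 := by
  rintro _ ⟨θ, hθ, rfl⟩ v V hV h0 h1 x
  obtain ⟨d, e, hp⟩ := exists_Prm (p := p) (hD := hD) θ.sup v V hV
  by_contra hc
  have hs : p.Bd fun m => rep x m + 1 := (bd_rep x).add hD (bd_const hD 1)
  have hq : (fun m => Nat.pair (e m) (d m)) ∈ Fam D := Fam_pair hp.2 hp.1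
  obtain ⟨f, hf, hfe⟩ := get_fun (D := D) (k := false) (θ := θ) hs.1 hq
  have key : ∀ x' : p.I, (∀ᶠ m in U, rep x' m ≤ rep x m) →
      (Sat (p.M hD) θ.ex (cons x' v) V ↔ Low p fun m => fv (f m) (rep x' m)) := by
    intro x' hx'
    constructor
    · rintro ⟨y, hy⟩
      have h2 := (R3_iff hθ le_rfl hp x' y).1 hy
      obtain ⟨_, j, hj⟩ := bd_rep y
      refine ⟨j, ?_⟩
      filter_upwards [hfe, hx', h2, hj] with m a1 a2 a3 a4
      rw [a1 _ (by omega)]
      exact (lw_le_of a3).trans a4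
    · rintro ⟨j, hj⟩
      have h2 : ∀ᶠ m in U, ∃ y < D.B m, R3 false θ (Nat.pair (e m) (d m)) (rep x' m) y := by
        filter_upwards [hfe, hx', hj, p.a_B hD j] with m a1 a2 a3 a4
        rw [a1 _ (by omega)] at a3
        exact ⟨_, a3.trans_lt a4, lw_spec (a3.trans_lt a4)⟩
      obtain ⟨y, hy, h3⟩ := get_wit Fam_B (bd_rep x').1 hq h2
      have hyB : p.Bd y := ⟨hy, j, by
        filter_upwards [hfe, hx', hj, p.a_B hD j, h3] with m a1 a2 a3 a4 a5
        rw [a1 _ (by omega)] at a3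
        exact (a5.2.2 _ (lw_spec (a3.trans_lt a4))).trans a3⟩
      obtain ⟨y', hy'⟩ := ex_rep hyB
      refine ⟨y', (R3_iff hθ le_rfl hp x' y').2 ?_⟩
      filter_upwards [h3, hy'] with m a1 a2
      rw [a2]
      exact a1.2.1
  obtain ⟨j, hj⟩ := semi (p := p) hD hf hs
  have hx0 : ¬ Low p fun m => fv (f m) (rep x m) := fun h =>
    hc ((key x (Eventually.of_forall fun _ => le_rfl)).2 h)
  have hz : ∀ᶠ m in U, fv (f m) 0 ≤ p.a j m := by
    have h2 := (key (p.M hD).zero (by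
      filter_upwards [zero_ae (p := p) (hD := hD)] with m h
      rw [h]
      exact Nat.zero_le _)).1 h0
    have h3 := hj (rep (p.M hD).zero) (by
      filter_upwards [zero_ae (p := p) (hD := hD)] with m h
      rw [h]
      exact Nat.succ_pos _) h2
    filter_upwards [h3, zero_ae (p := p) (hD := hD)] with m a b
    rwa [b] at a
  obtain ⟨y, hy, h2, -⟩ := Fam_choose (D := D) .ind
    (f := fun m => Nat.pair (f m) (Nat.pair (p.a j m) (rep x m)))
    (Fam_pair hf (Fam_pair (p.a_mem j) (bd_rep x).1)) (by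
      filter_upwards [hz, not_low hx0 j] with m a b
      have : ∃ y < rep x m, fv (f m) y ≤ p.a j m ∧ ¬ fv (f m) (y + 1) ≤ p.a j m := by
        by_contra hd
        push Not at hd
        have h3 : ∀ y ≤ rep x m, fv (f m) y ≤ p.a j m := fun y hy => by
          induction y with
          | zero => exact a
          | succ y ih => exact hd y (by omega) (ih (by omega))
        exact absurd (h3 _ le_rfl) (not_le.2 b)
      obtain ⟨y, h3, h4, h5⟩ := this
      refine ⟨y, ?_⟩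
      show y < _ ∧ _ ≤ _ ∧ ¬ _ ≤ _
      simp only [Nat.unpair_pair]
      exact ⟨h3, h4, h5⟩)
  have h3 : ∀ᶠ m in U, y m < rep x m ∧ fv (f m) (y m) ≤ p.a j m ∧
      ¬ fv (f m) (y m + 1) ≤ p.a j m := h2.mono fun m h => by
    have h4 : y m < _ ∧ _ ≤ _ ∧ ¬ _ ≤ _ := h
    simp only [Nat.unpair_pair] at h4
    exact h4
  obtain ⟨y', hy'⟩ := ex_rep ((bd_rep x).le hy (h3.mono fun _ h => h.1.le))
  have h4 := h1 y' ((key y' (by
    filter_upwards [h3, hy'] with m a b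
    rw [b]
    exact a.1.le)).2 ⟨j, by
      filter_upwards [h3, hy'] with m a b
      rw [b]
      exact a.2.1⟩)
  have h5 := (key _ (by
    filter_upwards [h3, hy', succ_ae (hD := hD) y'] with m a b c
    rw [c, b]
    exact a.1)).1 h4
  have h6 := hj _ (by
    filter_upwards [h3, hy', succ_ae (hD := hD) y'] with m a b c
    rw [c, b]
    omega) h5
  obtain ⟨m, a1, a2, a3, a4⟩ := (h6.and (h3.and (hy'.and (succ_ae (hD := hD) y')))).exists
  rw [a4, a3] at a1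
  exact a2.2.2 a1

theorem dca : DCA (p.M hD) := by
  rintro _ _ ⟨θ, hθ, rfl⟩ ⟨θ', hθ', rfl⟩ v V hV h
  obtain ⟨d, e, hp⟩ := exists_Prm (p := p) (hD := hD) (max θ.sup θ'.sup) v V hV
  have hq : (fun m => Nat.pair (e m) (d m)) ∈ Fam D := Fam_pair hp.2 hp.1
  obtain ⟨c, hc, h1, -⟩ := Fam_choose (D := D) (.dca θ θ')
    (f := fun m => Nat.pair (D.B m) (Nat.pair (e m) (d m)))
    (Fam_pair Fam_B hq) (Eventually.of_forall fun m => by
      obtain ⟨c, hc⟩ := fs_exists (D.B m) fun x => ∃ y' < D.B m,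
        R3 false θ (Nat.pair (e m) (d m)) x y' ∧
          ∀ z < y', R3 false θ' (Nat.pair (e m) (d m)) x z
      refine ⟨c, ?_⟩
      show ∀ x, x ∈ fs c ↔ x < _ ∧ _
      simp only [Nat.unpair_pair]
      exact hc)
  have h2 : ∀ᶠ m in U, ∀ x, x ∈ fs (c m) ↔ x < D.B m ∧ ∃ y' < D.B m,
      R3 false θ (Nat.pair (e m) (d m)) x y' ∧
        ∀ z < y', R3 false θ' (Nat.pair (e m) (d m)) x z := h1.mono fun m h => by
    have h3 : ∀ x, x ∈ fs (c m) ↔ x < _ ∧ _ := h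
    simp only [Nat.unpair_pair] at h3
    exact h3
  refine ⟨c, hc, Set.ext fun x => ?_⟩
  show Sat (p.M hD) θ.ex (cons x v) V ↔ ∀ᶠ m in U, rep x m ∈ fs (c m)
  constructor
  · intro hx
    have hx' : ∀ z, Sat (p.M hD) θ' (cons z (cons x v)) V := (h x).1 hx
    obtain ⟨y, hy⟩ := hx
    have h3 := (R3_iff hθ (le_max_left _ _) hp x y).1 hy
    have h4 : ∀ᶠ m in U, ∀ z < rep y m, R3 false θ' (Nat.pair (e m) (d m)) (rep x m) z := by
      by_contra hcon
      obtain ⟨z, hz, h5⟩ := get_wit (k := false) (θ := .neg θ') (bd_rep y).1 (bd_rep x).1 hq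
        ((ae_not.2 hcon).mono fun m h => by
          push Not at h
          exact h)
      obtain ⟨z', hz'⟩ := ex_rep ((bd_rep y).le hz (h5.mono fun _ h => h.1.le))
      have h6 := (R3_iff hθ' (le_max_right _ _) hp x z').1 (hx' z')
      obtain ⟨m, a1, a2, a3⟩ := (h6.and (h5.and hz')).exists
      rw [a3] at a1
      exact a2.2.1 a1
    filter_upwards [h2, h3, h4, (bd_rep x).lt_B hD, (bd_rep y).lt_B hD] with m a1 a2 a3 a4 a5
    exact (a1 _).2 ⟨a4, _, a5, a2, a3⟩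
  · intro hx
    by_contra hcon
    have h3 : ¬ ∀ z, Sat (p.M hD) θ' (cons z (cons x v)) V := fun h' => hcon ((h x).2 h')
    push Not at h3
    obtain ⟨z, hz⟩ := h3
    have h4 := ae_not.2 fun h' => hz ((R3_iff hθ' (le_max_right _ _) hp x z).2 h')
    have hs : p.Bd fun m => rep z m + 1 := (bd_rep z).add hD (bd_const hD 1)
    obtain ⟨y, hy, h5⟩ := get_wit (k := false) (θ := θ) hs.1 (bd_rep x).1 hq (by
      filter_upwards [hx, h2, h4] with m a1 a2 a3
      obtain ⟨-, y', -, b1, b2⟩ := (a2 _).1 a1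
      refine ⟨y', ?_, b1⟩
      by_contra hlt
      exact a3 (b2 _ (by omega)))
    obtain ⟨y', hy'⟩ := ex_rep (hs.le hy (h5.mono fun _ h => h.1.le))
    refine hcon ⟨y', (R3_iff hθ (le_max_left _ _) hp x y').2 ?_⟩
    filter_upwards [h5, hy'] with m a1 a2
    rw [a2]
    exact a1.2.1

theorem bnd2 : Bnd (p.M hD) 2 := by
  rintro _ ⟨_, ⟨θ, hθ, rfl⟩, rfl⟩ v V hV a h
  by_contra H
  push Not at H
  obtain ⟨d, e, hp⟩ := exists_Prm (p := p) (hD := hD) θ.sup v V hV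
  have ha : ∀ᶠ m in U, 0 < rep a m := by
    obtain ⟨x, hx, -⟩ := H (p.M hD).zero
    have hx' : ∀ᶠ m in U, rep x m < rep a m := hx
    exact hx'.mono fun m h => (Nat.zero_le _).trans_lt h
  let t : ℕ → ℕ → ℕ → ℕ := fun m b x => lw (D.B m) fun e' => ∀ q < b, ∃ z < e',
    R3 true θ (Nat.pair (e m) (Nat.pair x (d m))) q z
  obtain ⟨hc, hhc, h1, -⟩ := Fam_choose (D := D) (.dr θ)
    (f := fun m => Nat.pair (D.B m) (Nat.pair (D.B m) (Nat.pair (rep a m)
      (Nat.pair (e m) (d m)))))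
    (Fam_pair Fam_B (Fam_pair Fam_B (Fam_pair (bd_rep a).1 (Fam_pair hp.2 hp.1))))
    (Eventually.of_forall fun m => by
      obtain ⟨c, hc⟩ := fv_surj (fun b => am (rep a m) (t m b)) (D.B m)
      refine ⟨c, ?_⟩
      show ∀ b < _, _ = _
      simp only [Nat.unpair_pair]
      exact hc)
  have h2 : ∀ᶠ m in U, ∀ b < D.B m, fv (hc m) b = am (rep a m) (t m b) := h1.mono fun m h => by
    have h3 : ∀ b < _, _ = _ := h
    simp only [Nat.unpair_pair] at h3
    exact h3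
  -- small values
  have C1 : ∀ b : p.I, ∃ x : p.I, (∀ᶠ m in U, rep x m < rep a m) ∧
      Low p fun m => t m (rep b m) (rep x m) := by
    intro b
    obtain ⟨x, hx, hbad⟩ := H b
    have hq : (fun m => Nat.pair (e m) (Nat.pair (rep x m) (d m))) ∈ Fam D :=
      Fam_pair hp.2 (Fam_pair (bd_rep x).1 hp.1)
    obtain ⟨f, hf, hfe⟩ := get_fun (D := D) (k := true) (θ := θ) (bd_rep b).1 hq
    obtain ⟨j, hj⟩ := semi' (p := p) hD hf (bd_rep b) (by
      intro q hqB hqb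
      obtain ⟨y, hy⟩ := ex_rep (hqB.le (Fam_fst hqB.1) (Eventually.of_forall fun m =>
        Nat.unpair_left_le _))
      obtain ⟨w, hw⟩ := ex_rep (hqB.le (Fam_snd hqB.1) (Eventually.of_forall fun m =>
        Nat.unpair_right_le _))
      have h3 := hbad y (by
        filter_upwards [hqb, hy] with m a1 a2
        rw [a2]
        exact (Nat.unpair_left_le _).trans_lt a1)
      have h4 : ¬ ∀ z, Sat (p.M hD) θ (cons z (cons w (cons y (cons x v)))) V :=
        fun h' => h3 ⟨w, h'⟩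
      push Not at h4
      obtain ⟨z, hz⟩ := h4
      have h5 := ae_not.2 fun h' => hz ((R3_iff' hθ le_rfl hp x y w z).2 h')
      obtain ⟨_, l, hl⟩ := bd_rep z
      refine ⟨l, ?_⟩
      filter_upwards [hfe, hqb, h5, hl, hy, hw] with m a1 a2 a3 a4 a5 a6
      rw [a1 _ a2]
      rw [a5, a6, Nat.pair_unpair, not_not] at a3
      exact (lw_le_of a3).trans a4)
    refine ⟨x, hx, j + 1, ?_⟩
    filter_upwards [hj, hfe, p.a_B hD j, p.a_lt j] with m a1 a2 a3 a4
    have h6 : t m (rep b m) (rep x m) ≤ p.a j m + 1 := lw_le_of fun q hq' => by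
      have h7 := a1 q hq'
      rw [a2 _ hq'] at h7
      exact ⟨_, Nat.lt_succ_of_le h7, lw_spec (h7.trans_lt a3)⟩
    omega
  have C2 : ∀ i, Low p fun m => t m (p.a i m) (fv (hc m) (p.a i m)) := by
    intro i
    obtain ⟨b, hb⟩ := ex_rep (bd_a (p := p) i)
    obtain ⟨x, hx, l, hl⟩ := C1 b
    refine ⟨l, ?_⟩
    filter_upwards [hl, hx, hb, h2, p.a_B hD i, ha] with m a1 a2 a3 a4 a5 a6
    rw [a4 _ a5]
    rw [a3] at a1
    exact ((am_spec a6).2 _ a2).trans a1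
  obtain ⟨j, hj⟩ := reg' (p := p) hD hhc (bd_rep a)
  have hx0 : (fun m => fv (hc m) (p.a j m)) ∈ Fam D := Fam_ap hhc (p.a_mem j)
  have hx0a : ∀ᶠ m in U, fv (hc m) (p.a j m) < rep a m := by
    filter_upwards [h2, p.a_B hD j, ha] with m a1 a2 a3
    rw [a1 _ a2]
    exact (am_spec a3).1
  obtain ⟨x, hx⟩ := ex_rep ((bd_rep a).le hx0 (hx0a.mono fun _ h => h.le))
  obtain ⟨y, w, hyw⟩ := h x (by
    filter_upwards [hx0a, hx] with m a1 a2
    rw [a2]
    exact a1)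
  have hyw' : ∀ z, Sat (p.M hD) θ (cons z (cons w (cons y (cons x v)))) V := hyw
  have hqB : p.Bd fun m => Nat.pair (rep y m) (rep w m) := (bd_rep y).pair hD (bd_rep w)
  obtain ⟨_, i0, hi0⟩ := hqB
  obtain ⟨l, hl⟩ := C2 (max i0 j + 1)
  have hq : (fun m => Nat.pair (e m) (Nat.pair (rep x m) (d m))) ∈ Fam D :=
    Fam_pair hp.2 (Fam_pair (bd_rep x).1 hp.1)
  obtain ⟨z, hz, h5⟩ := get_wit (k := true) (θ := θ) (p.a_mem l)
    (Fam_pair (bd_rep y).1 (bd_rep w).1) hq (by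
      filter_upwards [hl, h2, hj (max i0 j + 1) (by omega), hx, hi0,
        p.a_mono (le_max_left i0 j), p.a_lt (max i0 j), p.a_B hD l, p.a_B hD j,
        p.a_B hD (max i0 j + 1), ha] with m a1 a2 a3 a4 a5 a6 a7 a8 a9 a10 a11
      rw [a2 _ a9, a2 _ a10, min_eq_left (am_spec a11).1.le, min_eq_left (am_spec a11).1.le] at a3
      rw [a2 _ a10, a3] at a1
      rw [a2 _ a9] at a4
      rw [← a4] at a1
      have h6 : t m (p.a (max i0 j + 1) m) (rep x m) < D.B m := a1.trans_lt a8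
      obtain ⟨z, h7, h8⟩ := lw_spec h6 (Nat.pair (rep y m) (rep w m)) (by omega)
      exact ⟨z, lt_of_lt_of_le h7 a1, h8⟩)
  obtain ⟨z', hz'⟩ := ex_rep ((bd_a (p := p) l).le hz (h5.mono fun _ h => h.1.le))
  have h6 := (R3_iff' hθ le_rfl hp x y w z').1 (hyw' z')
  obtain ⟨m, a1, a2, a3⟩ := (h6.and (h5.and hz')).exists
  rw [a3] at a1
  exact a1 a2.2.1

theorem rca : RCA0 (p.M hD) := ⟨basic, ⟨_, _, Fam_const 0, rfl⟩, ind1, dca⟩

end Gn

end Pool.Agent.U35.RC
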