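import Pool.Agent.U35.RC.Rca
import Pool.Agent.U35.RC.Def

set_option autoImplicit false

/-!
Weak König's lemma in the model.
-/

namespace Pool.Agent.U35.RC

open Filter
open Pool.Agent.H40.Bsig (Tm Fm Mod Sat Bdd cons std dec dec_pair U sp sp_inj le_sp Codes ae_not
  ae_or U_ge ae_iff IsCode pair)

/-- the least code, for sets -/
theorem lc_le {X : Set ℕ} {c : ℕ} (h : Codes std c X) : lc X ≤ c := Nat.sInf_le h

theorem lc_spec {X : Set ℕ} (h : ∃ c, Codes std c X) : Codes std (lc X) X := Nat.sInf_mem h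

theorem codes_Cd {c : ℕ} {X : Set ℕ} (h : Codes std c X) (i : ℕ) : i ∈ X ↔ Cd c i := by
  obtain ⟨k, a, n, rfl, h⟩ := h
  refine (h i).trans ⟨fun h => ⟨k, a, n, rfl, h.1, h.2⟩, ?_⟩
  rintro ⟨k', a', n', e, h1, h2⟩
  obtain ⟨rfl, e'⟩ := sp_inj e
  obtain ⟨rfl, rfl⟩ := sp_inj e'
  exact ⟨h1, h2⟩

namespace Gn

variable {D : Dat} {p : Gn D} {hD : D.Ok}

theorem pair_ae (x y : p.I) :
    ∀ᶠ m in U, rep (pair (p.M hD) x y) m = sp (rep x m) (rep y m) :=
  los_tm (hD := hD) (.add (.mul (.add (.var 0) (.var 1)) (.add (.var 0) (.var 1))) (.var 0))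
    (cons x fun _ => y) (fun m => cons (rep x m) fun _ => rep y m) (by
      rintro (_ | i) _
      · exact Eventually.of_forall fun _ => rfl
      · exact Eventually.of_forall fun _ => rfl)

theorem dv_iff (a i n : p.I) :
    (∃ q, (p.M hD).mul ((p.M hD).add ((p.M hD).mul a ((p.M hD).add i (p.M hD).one))
      (p.M hD).one) q = n) ↔
      ∀ᶠ m in U, ∃ q, (rep a m * (rep i m + 1) + 1) * q = rep n m := by
  have key : ∀ q : p.I, ∀ᶠ m in U,
      rep ((p.M hD).mul ((p.M hD).add ((p.M hD).mul a ((p.M hD).add i (p.M hD).one))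
        (p.M hD).one) q) m = (rep a m * (rep i m + 1) + 1) * rep q m := fun q =>
    los_tm (hD := hD) (.mul (.add (.mul (.var 0) (.add (.var 1) .one)) .one) (.var 2))
      (cons a (cons i fun _ => q)) (fun m => cons (rep a m) (cons (rep i m) fun _ => rep q m)) (by
        rintro (_ | _ | i) _
        · exact Eventually.of_forall fun _ => rfl
        · exact Eventually.of_forall fun _ => rfl
        · exact Eventually.of_forall fun _ => rfl)
  refine ⟨fun ⟨q, e⟩ => (key q).mono fun m e' => ⟨_, e ▸ e'.symm⟩, fun h => ?_⟩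
  have hu : (fun m => rep a m * (rep i m + 1) + 1) ∈ Fam D :=
    Fam_add (Fam_mul (bd_rep a).1 (Fam_add (bd_rep i).1 (Fam_const 1))) (Fam_const 1)
  obtain ⟨f, hf, h1, -⟩ := Fam_choose (D := D) .quo
    (f := fun m => Nat.pair (rep a m * (rep i m + 1) + 1) (rep n m))
    (Fam_pair hu (bd_rep n).1) (h.mono fun m h => by
      obtain ⟨q, hq⟩ := h
      refine ⟨q, ?_⟩
      show _ * _ = _
      simp only [Nat.unpair_pair]
      exact hq)
  have h2 : ∀ᶠ m in U, (rep a m * (rep i m + 1) + 1) * f m = rep n m := h1.mono fun m h => by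
    have h3 : _ * _ = _ := h
    simp only [Nat.unpair_pair] at h3
    exact h3
  obtain ⟨q, hq⟩ := ex_rep ((bd_rep n).le hf (h2.mono fun m e => by
    rw [← e]
    exact Nat.le_mul_of_pos_left _ (Nat.succ_pos _)))
  refine ⟨q, (ext_iff _ _).2 ?_⟩
  filter_upwards [key q, h2, hq] with m a1 a2 a3
  rw [a1, a3, a2]

/-- the set coded by `c` in the model -/
theorem codes_mem {c : p.I} {A : Set p.I} (h : Codes (p.M hD) c A) (i : p.I) :
    i ∈ A ↔ ∀ᶠ m in U, Cd (rep c m) (rep i m) := by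
  obtain ⟨k, a, n, rfl, h⟩ := h
  rw [h i, dv_iff]
  show (∀ᶠ m in U, rep i m < rep k m) ∧ _ ↔ _
  rw [← eventually_and]
  refine eventually_congr ?_
  filter_upwards [pair_ae (hD := hD) k (pair (p.M hD) a n), pair_ae (hD := hD) a n] with m a1 a2
  rw [a1, a2]
  constructor
  · rintro ⟨b1, b2⟩
    exact ⟨_, _, _, rfl, b1, b2⟩
  · rintro ⟨k', a', n', e, b1, b2⟩
    obtain ⟨e1, e'⟩ := sp_inj e
    obtain ⟨e2, e3⟩ := sp_inj e'
    rw [e1, e2, e3]
    exact ⟨b1, b2⟩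

theorem codes_iff {δ n : ℕ → ℕ} (hδ : δ ∈ Fam D) (hn : p.Bd n)
    (hb : ∀ᶠ m in U, ∀ i ∈ fs (δ m), i < n m) (c : p.I) :
    Codes (p.M hD) c (Zs δ) ↔ ∀ᶠ m in U, Codes std (rep c m) {i | i ∈ fs (δ m)} := by
  constructor
  · intro hc
    have hc' := hc
    obtain ⟨k, a, n', rfl, -⟩ := hc'
    have e : ∀ᶠ m in U, rep (pair (p.M hD) k (pair (p.M hD) a n')) m =
        sp (rep k m) (sp (rep a m) (rep n' m)) := by
      filter_upwards [pair_ae (hD := hD) k (pair (p.M hD) a n'), pair_ae (hD := hD) a n'] with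
        m a1 a2
      rw [a1, a2]
    have key : ∀ᶠ m in U, ∀ i, i ∈ fs (δ m) ↔
        Cd (rep (pair (p.M hD) k (pair (p.M hD) a n')) m) i := by
      by_contra hcon
      obtain ⟨y, hy, h1, -⟩ := Fam_choose (D := D) .sdf
        (f := fun m => Nat.pair (δ m) (rep (pair (p.M hD) k (pair (p.M hD) a n')) m))
        (Fam_pair hδ (bd_rep _).1) ((ae_not.2 hcon).mono fun m h => by
          rw [not_forall] at h
          obtain ⟨x, hx⟩ := h
          refine ⟨x, ?_⟩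
          show ¬ (x ∈ fs _ ↔ Cd _ x)
          simp only [Nat.unpair_pair]
          exact hx)
      have h2 : ∀ᶠ m in U, ¬ (y m ∈ fs (δ m) ↔
          Cd (rep (pair (p.M hD) k (pair (p.M hD) a n')) m) (y m)) := h1.mono fun m h => by
        have h3 : ¬ (y m ∈ fs _ ↔ Cd _ (y m)) := h
        simp only [Nat.unpair_pair] at h3
        exact h3
      obtain ⟨y', hy'⟩ := ex_rep ((hn.add hD (bd_rep k)).le hy (by
        filter_upwards [h2, hb, e] with m a1 a2 a3
        by_cases h4 : y m ∈ fs (δ m)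
        · have := a2 _ h4
          omega
        · have h5 : Cd (rep (pair (p.M hD) k (pair (p.M hD) a n')) m) (y m) := by
            by_contra h5
            exact a1 ⟨fun h => absurd h h4, fun h => absurd h h5⟩
          obtain ⟨k', a', n'', e', b1, -⟩ := h5
          rw [a3] at e'
          obtain ⟨e1, -⟩ := sp_inj e'
          omega))
      have h3 := ae_iff (((Iff.rfl : y' ∈ Zs δ ↔ ∀ᶠ m in U, rep y' m ∈ fs (δ m)).symm).trans
        (codes_mem hc y'))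
      refine ae_false ?_
      filter_upwards [h2, h3, hy'] with m a1 a2 a3
      rw [a3] at a2
      exact a1 a2
    filter_upwards [key, e] with m a1 a2
    refine ⟨rep k m, rep a m, rep n' m, a2, fun i => (a1 i).trans ?_⟩
    rw [a2]
    constructor
    · rintro ⟨k', a', n'', e', b1, b2⟩
      obtain ⟨e1, e2⟩ := sp_inj e'
      obtain ⟨e2, e3⟩ := sp_inj e2
      rw [e1, e2, e3]
      exact ⟨b1, b2⟩
    · rintro ⟨b1, b2⟩
      exact ⟨_, _, _, rfl, b1, b2⟩
  · intro h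
    obtain ⟨k, hk, hk1, -⟩ := Fam_choose (D := D) .ck (f := rep c) (bd_rep c).1
      (h.mono fun m h => by
        obtain ⟨k, a, n, e, -⟩ := h
        exact ⟨k, a, n, e⟩)
    obtain ⟨a, ha, ha1, -⟩ := Fam_choose (D := D) .ca (f := rep c) (bd_rep c).1
      (h.mono fun m h => by
        obtain ⟨k, a, n, e, -⟩ := h
        exact ⟨a, k, n, e⟩)
    obtain ⟨n', hn', hn1, -⟩ := Fam_choose (D := D) .cn (f := rep c) (bd_rep c).1
      (h.mono fun m h => by
        obtain ⟨k, a, n, e, -⟩ := h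
        exact ⟨n, k, a, e⟩)
    have e : ∀ᶠ m in U, rep c m = sp (k m) (sp (a m) (n' m)) := by
      filter_upwards [hk1, ha1, hn1] with m b1 b2 b3
      obtain ⟨x1, x2, e1⟩ : ∃ a n, rep c m = sp (k m) (sp a n) := b1
      obtain ⟨x3, x4, e2⟩ : ∃ k n, rep c m = sp k (sp (a m) n) := b2
      obtain ⟨x5, x6, e3⟩ : ∃ k a, rep c m = sp k (sp a (n' m)) := b3
      obtain ⟨f1, f2⟩ := sp_inj (e1.symm.trans e2)
      obtain ⟨f3, f4⟩ := sp_inj f2
      obtain ⟨f5, f6⟩ := sp_inj (e1.symm.trans e3)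
      obtain ⟨f7, f8⟩ := sp_inj f6
      rw [e1, f3, f8]
    obtain ⟨k', hk'⟩ := ex_rep ((bd_rep c).le hk (e.mono fun m e => e ▸ (le_sp _ _).1))
    obtain ⟨a', ha'⟩ := ex_rep ((bd_rep c).le ha (e.mono fun m e =>
      e ▸ (le_sp _ _).1.trans (le_sp _ _).2))
    obtain ⟨n'', hn''⟩ := ex_rep ((bd_rep c).le hn' (e.mono fun m e =>
      e ▸ (le_sp _ _).2.trans (le_sp _ _).2))
    refine ⟨k', a', n'', (ext_iff _ _).2 ?_, fun i => ?_⟩
    · filter_upwards [e, hk', ha', hn'', pair_ae (hD := hD) k' (pair (p.M hD) a' n''),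
        pair_ae (hD := hD) a' n''] with m a1 a2 a3 a4 a5 a6
      rw [a5, a6, a1, a2, a3, a4]
    · rw [dv_iff]
      show (∀ᶠ m in U, rep i m ∈ fs (δ m)) ↔ (∀ᶠ m in U, rep i m < rep k' m) ∧ _
      rw [← eventually_and]
      refine eventually_congr ?_
      filter_upwards [h, e, hk', ha', hn''] with m b1 b2 b3 b4 b5
      obtain ⟨x1, x2, x3, e1, h1⟩ := b1
      obtain ⟨f1, f2⟩ := sp_inj ((show rep c m = sp x1 (sp x2 x3) from e1).symm.trans b2)
      obtain ⟨f3, f4⟩ := sp_inj f2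
      rw [b3, b4, b5, ← f1, ← f3, ← f4]
      exact h1 _

theorem Fam_lc {δ : ℕ → ℕ} (hδ : δ ∈ Fam D) : (fun m => lc {i | i ∈ fs (δ m)}) ∈ Fam D :=
  Fam_sk .lc hδ

theorem isCode_mk {δ n : ℕ → ℕ} (hδ : δ ∈ Fam D) (hn : p.Bd n)
    (hb : ∀ᶠ m in U, ∀ i ∈ fs (δ m), i < n m) :
    ∃ c : p.I, IsCode (p.M hD) c (Zs δ) ∧ ∀ᶠ m in U, rep c m = lc {i | i ∈ fs (δ m)} := by
  have hb2 : ∀ᶠ m in U, Codes std (lc {i | i ∈ fs (δ m)}) {i | i ∈ fs (δ m)} ∧
      lc {i | i ∈ fs (δ m)} ≤ D.g (n m) := by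
    filter_upwards [hb] with m h
    obtain ⟨c, h1, h2⟩ := hD.cod (n m) {i | i ∈ fs (δ m)} h
    exact ⟨lc_spec ⟨c, h1⟩, (lc_le h1).trans ((le_sp _ _).2.trans h2)⟩
  obtain ⟨c, hc⟩ := ex_rep ((hn.g hD).le (Fam_lc hδ) (hb2.mono fun _ h => h.2))
  refine ⟨c, ⟨(codes_iff hδ hn hb c).2 ?_, fun c' hc' hlt => ?_⟩, hc⟩
  · filter_upwards [hb2, hc] with m a1 a2
    rw [a2]
    exact a1.1
  · have h1 := (codes_iff hδ hn hb c').1 hc'
    have hlt' : ∀ᶠ m in U, rep c' m < rep c m := hlt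
    refine ae_false ?_
    filter_upwards [h1, hlt', hc] with m a1 a2 a3
    have := lc_le a1
    omega

/-- the restriction of an internal set -/
theorem get_cut {n δ : ℕ → ℕ} (hn : n ∈ Fam D) (hδ : δ ∈ Fam D) :
    ∃ y ∈ Fam D, ∀ᶠ m in U, ∀ i, i ∈ fs (y m) ↔ i < n m ∧ i ∈ fs (δ m) := by
  obtain ⟨y, hy, h1, -⟩ := Fam_choose (D := D) .cut (f := fun m => Nat.pair (n m) (δ m))
    (Fam_pair hn hδ) (Eventually.of_forall fun m => by
      obtain ⟨c, hc⟩ := fs_exists (n m) fun i => i ∈ fs (δ m)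
      refine ⟨c, ?_⟩
      show ∀ i, i ∈ fs c ↔ i < _ ∧ i ∈ fs _
      simp only [Nat.unpair_pair]
      exact hc)
  refine ⟨y, hy, h1.mono fun m h => ?_⟩
  have h3 : ∀ i, i ∈ fs (y m) ↔ i < _ ∧ i ∈ fs _ := h
  simp only [Nat.unpair_pair] at h3
  exact h3

/-- an initial segment of a set which is internal on an initial segment has a code -/
theorem restr_mk {Y : Set p.I} {n : p.I} {δ : ℕ → ℕ} (hδ : δ ∈ Fam D)
    (h : ∀ i : p.I, (∀ᶠ m in U, rep i m < rep n m) → (i ∈ Y ↔ ∀ᶠ m in U, rep i m ∈ fs (δ m))) :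
    ∃ s : p.I, Restr (p.M hD) Y n s ∧
      ∀ᶠ m in U, rep s m = sp (rep n m) (lc {i | i < rep n m ∧ i ∈ fs (δ m)}) := by
  obtain ⟨y, hy, h1⟩ := get_cut (bd_rep n).1 hδ
  obtain ⟨c, hc, hc'⟩ := isCode_mk (hD := hD) hy (bd_rep n) (by
    filter_upwards [h1] with m h i hi
    exact ((h i).1 hi).1)
  have e : {i | (p.M hD).lt i n ∧ i ∈ Y} = Zs y := by
    ext i
    show (∀ᶠ m in U, rep i m < rep n m) ∧ i ∈ Y ↔ ∀ᶠ m in U, rep i m ∈ fs (y m)
    constructor
    · rintro ⟨a1, a2⟩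
      filter_upwards [a1, (h i a1).1 a2, h1] with m b1 b2 b3
      exact (b3 _).2 ⟨b1, b2⟩
    · intro a1
      have a2 : ∀ᶠ m in U, rep i m < rep n m := by
        filter_upwards [a1, h1] with m b1 b2
        exact ((b2 _).1 b1).1
      refine ⟨a2, (h i a2).2 ?_⟩
      filter_upwards [a1, h1] with m b1 b2
      exact ((b2 _).1 b1).2
  refine ⟨pair (p.M hD) n c, ⟨c, by rw [e]; exact hc, rfl⟩, ?_⟩
  filter_upwards [pair_ae (hD := hD) n c, hc', h1] with m a1 a2 a3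
  rw [a1, a2]
  congr 2
  ext i
  exact a3 i

theorem wkl : WKL (p.M hD) := by
  rintro _ ⟨τ, hτ, rfl⟩ ⟨-, hcl, hinf⟩
  -- the internal tree contains the strings of a set of each length
  have Q : ∀ n : p.I, ∀ᶠ m in U, ∃ X, Okt (τ m) (rep n m) X := by
    intro n
    obtain ⟨Y, s, hsT, c, hc, hs⟩ := hinf ((p.M hD).add n (p.M hD).one)
    obtain ⟨δ, hδ, h1, -⟩ := Fam_choose (D := D) .cset
      (f := fun m => Nat.pair (rep n m) (rep c m))
      (Fam_pair (bd_rep n).1 (bd_rep c).1) (Eventually.of_forall fun m => by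
        obtain ⟨c', hc'⟩ := fs_exists (rep n m) (Cd (rep c m))
        refine ⟨c', ?_⟩
        show ∀ i, i ∈ fs c' ↔ i < _ ∧ Cd _ i
        simp only [Nat.unpair_pair]
        exact hc')
    have h2 : ∀ᶠ m in U, ∀ i, i ∈ fs (δ m) ↔ i < rep n m ∧ Cd (rep c m) i := h1.mono fun m h => by
      have h3 : ∀ i, i ∈ fs (δ m) ↔ i < _ ∧ Cd _ i := h
      simp only [Nat.unpair_pair] at h3
      exact h3
    have hY : ∀ i : p.I, (∀ᶠ m in U, rep i m < rep n m) →
        (i ∈ Y ↔ ∀ᶠ m in U, rep i m ∈ fs (δ m)) := by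
      intro i hi
      have h3 := codes_mem hc.1 i
      have h4 : (p.M hD).lt i ((p.M hD).add n (p.M hD).one) := by
        show ∀ᶠ m in U, _ < _
        filter_upwards [hi, succ_ae (hD := hD) n] with m a b
        rw [b]
        omega
      have h5 : i ∈ {i | (p.M hD).lt i ((p.M hD).add n (p.M hD).one) ∧ i ∈ Y} ↔ i ∈ Y :=
        ⟨fun h => h.2, fun h => ⟨h4, h⟩⟩
      rw [← h5, h3]
      refine eventually_congr ?_
      filter_upwards [hi, h2] with m a b
      rw [b]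
      exact ⟨fun h => ⟨a, h⟩, fun h => h.2⟩
    have key : ∀ᶠ m in U, ∀ n' ≤ rep n m, sp n' (lc {i | i < n' ∧ i ∈ fs (δ m)}) ∈ fs (τ m) := by
      by_contra hcon
      obtain ⟨y, hy, h3, -⟩ := Fam_choose (D := D) .wfail
        (f := fun m => Nat.pair (τ m) (Nat.pair (rep n m) (δ m)))
        (Fam_pair hτ (Fam_pair (bd_rep n).1 hδ)) ((ae_not.2 hcon).mono fun m h => by
          push Not at h
          obtain ⟨x, h4, h5⟩ := h
          refine ⟨x, ?_⟩
          show x ≤ _ ∧ sp x _ ∉ fs _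
          simp only [Nat.unpair_pair]
          exact ⟨h4, h5⟩)
      have h4 : ∀ᶠ m in U, y m ≤ rep n m ∧
          sp (y m) (lc {i | i < y m ∧ i ∈ fs (δ m)}) ∉ fs (τ m) := h3.mono fun m h => by
        have h5 : y m ≤ _ ∧ sp (y m) _ ∉ fs _ := h
        simp only [Nat.unpair_pair] at h5
        exact h5
      obtain ⟨n', hn'⟩ := ex_rep ((bd_rep n).le hy (h4.mono fun _ h => h.1))
      obtain ⟨s', hs', hs''⟩ := restr_mk (hD := hD) (Y := Y) (n := n') hδ fun i hi => hY i (by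
        filter_upwards [hi, h4, hn'] with m a b c'
        omega)
      have h5 := hcl Y _ n' s s' hsT ⟨c, hc, hs⟩ (by
        show ∀ᶠ m in U, _ < _
        filter_upwards [h4, hn', succ_ae (hD := hD) n] with m a b c'
        rw [c', b]
        omega) hs'
      have h6 : ∀ᶠ m in U, rep s' m ∈ fs (τ m) := h5
      refine ae_false ?_
      filter_upwards [h6, hs'', h4, hn'] with m a1 a2 a3 a4
      rw [a2, a4] at a1
      exact a3.2 a1
    filter_upwards [key, h2] with m a1 a2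
    exact ⟨fs (δ m), fun i hi => ((a2 i).1 hi).1, a1⟩
  obtain ⟨N, hN, h1, -⟩ := Fam_choose (D := D) .wmax
    (f := fun m => Nat.pair (τ m) (D.B m)) (Fam_pair hτ Fam_B) (by
      filter_upwards [Q (p.M hD).zero, zero_ae (p := p) (hD := hD)] with m a1 a2
      rw [a2] at a1
      classical
      refine ⟨Nat.findGreatest (fun n => ∃ X, Okt (τ m) n X) (D.B m), ?_⟩
      show _ ≤ _ ∧ (∃ X, Okt _ _ X) ∧ ∀ n ≤ _, (∃ X, Okt _ n X) → n ≤ _
      simp only [Nat.unpair_pair]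
      exact ⟨Nat.findGreatest_le _, Nat.findGreatest_spec (P := fun n => ∃ X, Okt (τ m) n X)
        (Nat.zero_le _) a1, fun n hn h => Nat.le_findGreatest hn h⟩)
  have h2 : ∀ᶠ m in U, (∃ X, Okt (τ m) (N m) X) ∧
      ∀ n ≤ D.B m, (∃ X, Okt (τ m) n X) → n ≤ N m := h1.mono fun m h => by
    have h3 : _ ≤ _ ∧ (∃ X, Okt _ _ X) ∧ ∀ n ≤ _, (∃ X, Okt _ n X) → n ≤ _ := h
    simp only [Nat.unpair_pair] at h3
    exact h3.2
  obtain ⟨ζ, hζ, h3, -⟩ := Fam_choose (D := D) .wset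
    (f := fun m => Nat.pair (τ m) (N m)) (Fam_pair hτ hN) (h2.mono fun m h => by
      obtain ⟨X, hX⟩ := h.1
      obtain ⟨c, rfl⟩ := fs_surj X
      refine ⟨c, ?_⟩
      show Okt _ _ _
      simp only [Nat.unpair_pair]
      exact hX)
  have h4 : ∀ᶠ m in U, Okt (τ m) (N m) (fs (ζ m)) := h3.mono fun m h => by
    have h5 : Okt _ _ _ := h
    simp only [Nat.unpair_pair] at h5
    exact h5
  refine ⟨Zs ζ, ⟨ζ, hζ, rfl⟩, fun n => ?_⟩
  obtain ⟨s, hs, hs'⟩ := restr_mk (hD := hD) (Y := Zs ζ) (n := n) hζ fun i _ => Iff.rfl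
  refine ⟨s, ?_, hs⟩
  show ∀ᶠ m in U, rep s m ∈ fs (τ m)
  filter_upwards [hs', h4, h2, Q n, (bd_rep n).lt_B hD] with m a1 a2 a3 a4 a5
  rw [a1]
  exact a2.2 _ (a3.2 _ a5.le a4)

end Gn

end Pool.Agent.U35.RC
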